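import Pool.Agent.MP_e620c0_nt.lp.Spec

/-! The upper bound sieve on average over the modulus. -/

set_option autoImplicit false

namespace Pool.Agent.Emirp.LP

open Finset Filter Real

namespace Bt

/-- multiples of `m` but neither of `3 * m` nor of `11 * m` -/
noncomputable def br (l m k : ℕ) : ℝ :=
  wm l m k - wm l (3 * m) k - wm l (11 * m) k + wm l (33 * m) k

/-- the weight to which the sieve is applied -/
noncomputable def ww (l M : ℕ) (α : ℕ → ℝ) (k : ℕ) : ℝ := ∑ m ∈ Icc 1 M, α m * br l m k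

theorem br_nonneg (l m k : ℕ) : 0 ≤ br l m k := by
  have h1 : 3 * m ∣ k → m ∣ k := fun h => (Dvd.intro_left 3 rfl).trans h
  have h2 : 11 * m ∣ k → m ∣ k := fun h => (Dvd.intro_left 11 rfl).trans h
  have h3 : 3 * m ∣ k → 11 * m ∣ k → 33 * m ∣ k := fun a b => by
    have h := Nat.lcm_dvd a b
    rwa [Nat.lcm_mul_right, show Nat.lcm 3 11 = 33 by norm_num] at h
  unfold br wm
  by_cases hd : k / 10 ^ (l - 1) ∈ MAIN.DG
  · by_cases a : 3 * m ∣ k
    · by_cases b : 11 * m ∣ k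
      · simp [hd, a, b, h1 a, h3 a b]
      · simp only [hd, a, b, h1 a, true_and, if_true, if_false]
        split_ifs <;> norm_num
    · by_cases b : 11 * m ∣ k
      · simp only [hd, a, b, h2 b, true_and, if_true, if_false]
        split_ifs <;> norm_num
      · simp only [hd, a, b, true_and, if_false]
        split_ifs <;> norm_num
  · simp [hd]

theorem br_eq {l m k : ℕ} (hd : k / 10 ^ (l - 1) ∈ MAIN.DG) (a : ¬ 3 ∣ k) (b : ¬ 11 ∣ k) :
    br l m k = if m ∣ k then 1 else 0 := by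
  have h1 : ¬ 3 * m ∣ k := fun h => a ((Dvd.intro m rfl).trans h)
  have h2 : ¬ 11 * m ∣ k := fun h => b ((Dvd.intro m rfl).trans h)
  have h3 : ¬ 33 * m ∣ k := fun h => a ((Dvd.intro (11 * m) (by ring)).trans h)
  simp [br, wm, hd, h1, h2, h3]

theorem cnt {m : ℕ} (hm : 0 < m) (N : ℕ) :
    (N : ℝ) / m ≤ ∑ k ∈ range N, (if m ∣ k then (1 : ℝ) else 0) ∧
      ∑ k ∈ range N, (if m ∣ k then (1 : ℝ) else 0) ≤ N / m + 1 := by
  have h := Nat.count_modEq_card N hm 0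
  rw [Nat.count_eq_card_filter_range] at h
  have e : ∑ k ∈ range N, (if m ∣ k then (1 : ℝ) else 0) =
      (((range N).filter fun k => k ≡ 0 [MOD m]).card : ℝ) := by
    rw [sum_boole]
    simp only [Nat.modEq_zero_iff_dvd]
  have hm' : (0 : ℝ) < m := by exact_mod_cast hm
  rw [e, h, Nat.zero_mod]
  constructor
  · rw [div_le_iff₀ hm']
    have h1 := Nat.div_add_mod N m
    have h2 := Nat.mod_lt N hm
    have h3 : N ≤ (N / m + if 0 < N % m then 1 else 0) * m := by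
      split_ifs with h4
      · rw [add_mul, mul_comm (N / m)]; omega
      · rw [add_zero, mul_comm]; omega
    exact_mod_cast h3
  · have h1 : ((N / m : ℕ) : ℝ) ≤ N / m := Nat.cast_div_le
    push_cast
    split_ifs <;> linarith

theorem mass {l m : ℕ} (hl : 1 ≤ l) (hm : 0 < m) :
    |∑ k ∈ range (10 ^ l), wm l m k - 4 * 10 ^ (l - 1) / m| ≤ 4 := by
  have e : ∀ k, wm l m k = if k / 10 ^ (l - 1) ∈ MAIN.DG then (if m ∣ k then (1 : ℝ) else 0) else 0 :=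
    fun k => by rw [wm, ite_and]
  simp only [e]
  rw [MAIN.sum_cut hl]
  have h : ∀ d : ℕ, |∑ k ∈ Ico (d * 10 ^ (l - 1)) ((d + 1) * 10 ^ (l - 1)),
      (if m ∣ k then (1 : ℝ) else 0) - 10 ^ (l - 1) / m| ≤ 1 := fun d => by
    rw [sum_Ico_eq_sub _ (Nat.mul_le_mul_right _ d.le_succ)]
    obtain ⟨a1, a2⟩ := cnt hm (d * 10 ^ (l - 1))
    obtain ⟨b1, b2⟩ := cnt hm ((d + 1) * 10 ^ (l - 1))
    have e2 : (((d + 1) * 10 ^ (l - 1) : ℕ) : ℝ) / m =
        ((d * 10 ^ (l - 1) : ℕ) : ℝ) / m + 10 ^ (l - 1) / m := by push_cast; ring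
    rw [e2] at b1 b2
    rw [abs_le]
    constructor <;> linarith
  have h1 := abs_le.1 (h 1)
  have h3 := abs_le.1 (h 3)
  have h7 := abs_le.1 (h 7)
  have h9 := abs_le.1 (h 9)
  rw [MAIN.DG, sum_insert (by decide), sum_insert (by decide), sum_insert (by decide), sum_singleton,
    mul_div_assoc, abs_le]
  constructor <;> linarith [h1.1, h1.2, h3.1, h3.2, h7.1, h7.2, h9.1, h9.2]

theorem mass_br {l m : ℕ} (hl : 1 ≤ l) (hm : 0 < m) :
    ∑ k ∈ range (10 ^ l), br l m k ≤ 8 / 33 * 10 ^ l / m + 16 := by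
  have h1 := (abs_le.1 (mass hl hm)).2
  have h2 := (abs_le.1 (mass hl (show 0 < 3 * m by omega))).1
  have h3 := (abs_le.1 (mass hl (show 0 < 11 * m by omega))).1
  have h4 := (abs_le.1 (mass hl (show 0 < 33 * m by omega))).2
  have hm' : (0 : ℝ) < m := by exact_mod_cast hm
  have e : (8 / 33 * 10 ^ l / m : ℝ) = 4 * 10 ^ (l - 1) / m - 4 * 10 ^ (l - 1) / ((3 * m : ℕ) : ℝ)
      - 4 * 10 ^ (l - 1) / ((11 * m : ℕ) : ℝ) + 4 * 10 ^ (l - 1) / ((33 * m : ℕ) : ℝ) := by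
    obtain ⟨j, rfl⟩ : ∃ j, l = j + 1 := ⟨l - 1, by omega⟩
    rw [Nat.add_sub_cancel, pow_succ]
    push_cast
    field_simp
    ring
  simp only [br, sum_add_distrib, sum_sub_distrib]
  rw [e]
  linarith

theorem mass_ww {l M : ℕ} {α : ℕ → ℝ} (hl : 1 ≤ l) (hα : ∀ m, 0 ≤ α m) :
    ∑ k ∈ range (10 ^ l), ww l M α k ≤ (8 / 33 * 10 ^ l + 16 * M) * ∑ m ∈ Icc 1 M, α m / m := by
  unfold ww
  rw [sum_comm, mul_sum]
  refine sum_le_sum fun m hm => ?_
  obtain ⟨h1, h2⟩ := mem_Icc.1 hm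
  have hm' : (0 : ℝ) < m := by exact_mod_cast h1
  have hM : (m : ℝ) ≤ M := by exact_mod_cast h2
  rw [← mul_sum]
  refine (mul_le_mul_of_nonneg_left (mass_br hl h1) (hα m)).trans ?_
  have h3 : (1 : ℝ) ≤ M / m := (one_le_div hm').2 hM
  have h4 := mul_le_mul_of_nonneg_left h3 (hα m)
  have e : (8 / 33 * 10 ^ l + 16 * M) * (α m / m) =
      α m * (8 / 33 * 10 ^ l / m) + 16 * (α m * (M / m)) := by ring
  rw [e]
  linarith

theorem disc_ww (X l M : ℕ) (α : ℕ → ℝ) (v : ℕ → ℕ) (q : ℕ) :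
    disc X (ww l M α) v q = ∑ m ∈ Icc 1 M, α m * (disc X (wm l m) v q - disc X (wm l (3 * m)) v q
      - disc X (wm l (11 * m)) v q + disc X (wm l (33 * m)) v q) := by
  unfold disc ww br
  simp only [sum_mul]
  rw [sum_comm]
  refine sum_congr rfl fun m _ => ?_
  rw [← sum_sub_distrib, ← sum_sub_distrib, ← sum_add_distrib, mul_sum]
  exact sum_congr rfl fun k _ => by ring

theorem rem_ww (X l M : ℕ) {α : ℕ → ℝ} (hα : ∀ m, 0 ≤ α m) (v : ℕ → ℕ) (D : ℕ) :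
    rem X (ww l M α) v D ≤ ∑ m ∈ Icc 1 M, α m * (rem X (wm l (1 * m)) v D +
      rem X (wm l (3 * m)) v D + rem X (wm l (11 * m)) v D + rem X (wm l (33 * m)) v D) := by
  unfold rem
  simp only [← sum_add_distrib, mul_sum, one_mul]
  rw [sum_comm]
  refine sum_le_sum fun q _ => ?_
  have ht : 0 ≤ tau q ^ 5 := pow_nonneg (tau_nonneg q) 5
  rw [disc_ww]
  refine (mul_le_mul_of_nonneg_left (abs_sum_le_sum_abs _ _) ht).trans ?_
  rw [mul_sum]
  refine sum_le_sum fun m _ => ?_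
  rw [abs_mul, abs_of_nonneg (hα m), ← mul_add, ← mul_add, ← mul_add, mul_left_comm]
  refine mul_le_mul_of_nonneg_left (mul_le_mul_of_nonneg_left ?_ ht) (hα m)
  refine (abs_add_le _ _).trans (add_le_add ((abs_sub _ _).trans ?_) le_rfl)
  exact add_le_add (abs_sub _ _) le_rfl

theorem reidx {M e : ℕ} (h1 : 1 ≤ e) (h2 : e ≤ 33) {α R : ℕ → ℝ} {W : ℝ} (hW : 0 ≤ W)
    (hα : ∀ m, α m ≤ W * tau m) (hR : ∀ n, 0 ≤ R n) :
    ∑ m ∈ Icc 1 M, α m * R (e * m) ≤ W * ∑ n ∈ Icc 1 (33 * M), tau n ^ 5 * R n := by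
  have a1 : ∑ m ∈ Icc 1 M, α m * R (e * m) ≤ W * ∑ m ∈ Icc 1 M, tau (e * m) ^ 5 * R (e * m) := by
    rw [mul_sum]
    refine sum_le_sum fun m hm => ?_
    have h0 : e * m ≠ 0 := Nat.mul_ne_zero (by omega) (by have := (mem_Icc.1 hm).1; omega)
    rw [← mul_assoc]
    refine mul_le_mul_of_nonneg_right ((hα m).trans (mul_le_mul_of_nonneg_left ?_ hW)) (hR _)
    exact (tau_dvd (Dvd.intro_left e rfl) h0).trans (le_self_pow₀ (one_le_tau h0) (by norm_num))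
  refine a1.trans (mul_le_mul_of_nonneg_left ?_ hW)
  rw [← sum_image (s := Icc 1 M) (g := fun m => e * m) (f := fun n => tau n ^ 5 * R n)
    fun a _ b _ h => Nat.eq_of_mul_eq_mul_left h1 h]
  refine sum_le_sum_of_subset_of_nonneg (fun n hn => ?_)
    fun n _ _ => mul_nonneg (pow_nonneg (tau_nonneg n) 5) (hR n)
  obtain ⟨m, hm, rfl⟩ := mem_image.1 hn
  obtain ⟨b1, b2⟩ := mem_Icc.1 hm
  exact mem_Icc.2 ⟨Nat.mul_pos h1 b1, Nat.mul_le_mul h2 b2⟩

theorem ww_prime {l M p : ℕ} (α : ℕ → ℝ) (hl : 3 ≤ l) (hp : p ∈ PL l) :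
    ww l M α (rv l p) = dv M α (rv l p) := by
  obtain ⟨hI, hp⟩ := mem_filter.1 hp
  obtain ⟨h1, h⟩ := mem_Ico.1 hI
  have h2 : 10 ^ 2 ≤ 10 ^ (l - 1) := Nat.pow_le_pow_right (by norm_num) (by omega)
  have h3 : ∀ r : ℕ, r.Prime → r ∣ 99 → ¬ r ∣ rv l p := fun r hr h99 hd' => by
    have h4 : r ∣ 10 ^ (l - 1) * p := ((MAIN.rv_mod h).dvd_iff h99).1 hd'
    have h5 := Nat.le_of_dvd (by norm_num) h99
    rcases (Nat.Prime.dvd_mul hr).1 h4 with h6 | h6
    · have h7 := Nat.dvd_gcd (hr.dvd_of_dvd_pow h6) h99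
      exact hr.one_lt.ne' (Nat.dvd_one.1 (by simpa using h7))
    · have := (Nat.prime_dvd_prime_iff_eq hr hp).1 h6
      omega
  have h4 : rv l p / 10 ^ (l - 1) ∈ MAIN.DG := by
    rw [← MAIN.dg_top (by omega) (rv_lt l p), dg_rv (by omega), Nat.sub_self]
    have a2 : ¬ 2 ∣ p := fun a => by
      have := (Nat.prime_dvd_prime_iff_eq (by norm_num) hp).1 a
      omega
    have a5 : ¬ 5 ∣ p := fun a => by
      have := (Nat.prime_dvd_prime_iff_eq (by norm_num) hp).1 a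
      omega
    simp only [MAIN.DG, dg, mem_insert, mem_singleton, pow_zero, Nat.div_one]
    omega
  rw [ww, dv, sum_filter]
  refine sum_congr rfl fun m _ => ?_
  rw [br_eq h4 (h3 3 (by norm_num) (by norm_num)) (h3 11 (by norm_num) (by norm_num))]
  split_ifs <;> simp

theorem le_sift {l M ξ : ℕ} {α : ℕ → ℝ} (hl : 3 ≤ l) (hξ : ξ ^ 4 ≤ 10 ^ (l - 1))
    (hw : ∀ k, 0 ≤ ww l M α k) :
    ∑ p ∈ PL l, dv M α (rv l p) ≤ sift (10 ^ l) (ww l M α) (rv l) ξ := by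
  have e : sift (10 ^ l) (ww l M α) (rv l) ξ =
      ∑ n ∈ (range (10 ^ l)).filter (fun n => Rough ξ n), ww l M α (rv l n) := by
    rw [sift, sum_filter, sum_filter,
      ← sum_rv l fun n => if Rough ξ n then ww l M α (rv l n) else 0]
    exact sum_congr rfl fun k hk => by rw [rv_rv (mem_range.1 hk)]
  rw [e, ← sum_congr rfl fun p hp => ww_prime α hl hp]
  refine sum_le_sum_of_subset_of_nonneg (fun p hp => ?_) fun n _ _ => hw _
  obtain ⟨hI, hp⟩ := mem_filter.1 hp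
  obtain ⟨h1, h⟩ := mem_Ico.1 hI
  refine mem_filter.2 ⟨mem_range.2 h, fun q hq hq' hd => ?_⟩
  obtain rfl := (Nat.prime_dvd_prime_iff_eq hq' hp).1 hd
  have h2 := (mem_Icc.1 (mem_filter.1 hq).1).2
  have h3 : ξ ^ 1 < ξ ^ 4 := Nat.pow_lt_pow_right (hp.one_lt.trans_le h2) (by norm_num)
  rw [pow_one] at h3
  omega

end Bt

open Bt in
theorem bt (h : ToneStmt) : BtStmt := by
  intro A
  filter_upwards [h A, eventually_ge_atTop 3] with l hT hl M ξ k₁ k₂ α W hξ hM hD hk hW hα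
  have hα0 : ∀ m, 0 ≤ α m := fun m => (hα m).1
  have hw : ∀ k, 0 ≤ ww l M α k := fun k =>
    sum_nonneg fun m _ => mul_nonneg (hα0 m) (br_nonneg l m k)
  have h1 := le_sift hl (hD.trans (Nat.pow_le_pow_right (by norm_num) (by omega))) hw
  have hG : 0 < GG ξ := sum_pos (fun r hr => by
      have : 0 < r.totient := Nat.totient_pos.2 (mem_Icc.1 (mem_filter.1 hr).1).1
      positivity)
    ⟨1, mem_filter.2 ⟨mem_Icc.2 ⟨le_rfl, hξ⟩, squarefree_one, Nat.coprime_one_left _⟩⟩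
  have h2 := (sel (10 ^ l) ξ (ww l M α) (rv l) (fun r => if r ∈ DD ξ then 1 else 0) 1 hξ
    (fun k _ => hw k) (fun r => by split_ifs <;> norm_num) (fun r hr => if_neg hr)).1
  have e1 : ∑ r ∈ DD ξ, (if r ∈ DD ξ then (1 : ℝ) else 0) / r.totient = GG ξ :=
    sum_congr rfl fun r hr => by rw [if_pos hr]
  have e2 : ∑ r ∈ DD ξ, (if r ∈ DD ξ then (1 : ℝ) else 0) ^ 2 / r.totient = GG ξ :=
    sum_congr rfl fun r hr => by rw [if_pos hr, one_pow]
  simp only [e1, e2, one_mul] at h2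
  have h3 := hT (33 * M) (ξ ^ 2) k₁ k₂ hM (by rwa [← pow_mul]) hk
  have h4 : ∀ e, 1 ≤ e → e ≤ 33 → ∑ m ∈ Icc 1 M, α m * rem (10 ^ l) (wm l (e * m)) (rv l) (ξ ^ 2)
      ≤ W * (10 ^ l / (l : ℝ) ^ A) := fun e a b =>
    (reidx (R := fun n => rem (10 ^ l) (wm l n) (rv l) (ξ ^ 2)) a b hW (fun m => (hα m).2)
      fun n => SieveAux.rem_nonneg _ _ _ _).trans (mul_le_mul_of_nonneg_left h3 hW)
  have h5 := rem_ww (10 ^ l) l M hα0 (rv l) (ξ ^ 2)
  simp only [mul_add, sum_add_distrib] at h5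
  have h6 : rem (10 ^ l) (ww l M α) (rv l) (ξ ^ 2) ≤ 4 * W * (10 ^ l / (l : ℝ) ^ A) := by
    linarith [h4 1 (by norm_num) (by norm_num), h4 3 (by norm_num) (by norm_num),
      h4 11 (by norm_num) (by norm_num), h4 33 (by norm_num) (by norm_num)]
  have h7 : sift (10 ^ l) (ww l M α) (rv l) ξ ≤ (∑ k ∈ range (10 ^ l), ww l M α k) / GG ξ +
      rem (10 ^ l) (ww l M α) (rv l) (ξ ^ 2) := by
    refine le_of_mul_le_mul_left (h2.trans_eq ?_) (pow_pos hG 2)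
    field_simp
  have h8 := div_le_div_of_nonneg_right (mass_ww (M := M) (by omega : 1 ≤ l) hα0) hG.le
  linarith

end Pool.Agent.Emirp.LP
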