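import Pool.Agent.MP_e620c0_nt.lp.Spec

/-! Reduction to reduced fractions and the Cauchy-Schwarz step. -/

set_option autoImplicit false

namespace Pool.Agent.Emirp.LP

open Finset Filter Real

theorem redu : RedStmt := by
  intro D s g hs hd hg
  have q0 : ∀ q ∈ s, 0 < q := fun q hq => (mem_Icc.1 (hs hq)).1
  have k : ∀ q ∈ s, ∑ a ∈ range q, g (a / q) ≤
      ∑ d ∈ s, if d ∣ q then ∑ a ∈ red d, g (a / d) else 0 := fun q hq => by
    rw [← sum_filter, sum_sigma', sum_congr rfl fun a _ => congrArg g (Level.frac (q0 q hq) a).symm,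
      ← sum_image (s := range q) (g := fun a => (⟨Level.dn q a, Level.nm q a⟩ : Σ _ : ℕ, ℕ))
        (f := fun p : Σ _ : ℕ, ℕ => g (p.2 / p.1)) fun a _ b _ e =>
          Level.eq_of_red (q0 q hq) (congrArg Sigma.fst e) (congrArg (fun p : Σ _ : ℕ, ℕ => p.2) e)]
    refine sum_le_sum_of_subset_of_nonneg (image_subset_iff.2 fun a ha => mem_sigma.2
      ⟨mem_filter.2 ⟨hd q hq _ (Level.dn_dvd q a), Level.dn_dvd q a⟩, mem_filter.2
        ⟨mem_range.2 (Level.nm_lt (mem_range.1 ha)), Level.cop (q0 q hq) a⟩⟩) fun _ _ _ => hg _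
  refine (sum_le_sum fun q hq => mul_le_mul_of_nonneg_left (k q hq) (Level.tq_nonneg 5 q)).trans ?_
  simp only [mul_sum (s := s)]
  rw [sum_comm]
  refine sum_le_sum fun d hd => ?_
  have := mul_le_mul_of_nonneg_right (Level.tau_fib D (q0 d hd) s hs)
    (sum_nonneg (s := red d) fun a _ => hg (a / d))
  rw [sum_mul] at this
  refine (le_of_eq (sum_congr rfl fun q _ => ?_)).trans (this.trans (le_of_eq (by ring)))
  split_ifs <;> simp

namespace Cs

theorem cs2 {ι κ : Type} (S : Finset ι) (T : Finset κ) (f u v : ι → κ → ℝ) {X Y Z : ℝ}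
    (h : ∀ i ∈ S, ∀ j ∈ T, f i j ≤ u i j * v i j) (hu : ∑ j ∈ T, ∑ i ∈ S, u i j ^ 2 ≤ X)
    (hv : ∑ i ∈ S, ∑ j ∈ T, v i j ^ 2 ≤ Y) (hZ : 0 ≤ Z) (k : X * Y ≤ Z ^ 2) :
    ∑ i ∈ S, ∑ j ∈ T, f i j ≤ Z := by
  refine (sum_le_sum fun i hi => sum_le_sum fun j hj => h i hi j hj).trans
    ((le_abs_self _).trans (abs_le_of_sq_le_sq (le_trans ?_ k) hZ))
  rw [sum_comm] at hu
  rw [← sum_product'] at hu hv ⊢
  have a := sum_nonneg (s := S ×ˢ T) fun p _ => sq_nonneg (u p.1 p.2)
  exact (sum_mul_sq_le_sq_mul_sq _ _ _).trans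
    (mul_le_mul hu hv (sum_nonneg fun _ _ => sq_nonneg _) (a.trans hu))

theorem csq {q : ℕ} (h : 0 < q) : (tau q ^ 5 / q) ^ 2 * q = tau q ^ 10 / q := by
  have : (q : ℝ) ≠ 0 := by exact_mod_cast h.ne'
  field_simp

theorem td (N : ℕ) : ∑ n ∈ Icc 1 N, tau n ^ 10 / n ≤ ((1 + log N) ^ 512) ^ 2 := by
  rw [← pow_mul]
  exact tau_div 10 N

end Cs

open Cs in
theorem cs (h1 : LsStmt) (h2 : SplitStmt) : CsStmt := by
  intro l M D k₁ w k₂ G η hl hM hD hη hG h
  have tM := td M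
  have tD := td D
  have pM : 0 ≤ (1 + log (M : ℝ)) ^ 512 :=
    pow_nonneg (add_nonneg zero_le_one (log_natCast_nonneg M)) _
  have pD : 0 ≤ (1 + log (D : ℝ)) ^ 512 :=
    pow_nonneg (add_nonneg zero_le_one (log_natCast_nonneg D)) _
  generalize (1 + log (M : ℝ)) ^ 512 = X at *
  generalize (1 + log (D : ℝ)) ^ 512 = Y at *
  have sQ : (Level.QQ D).filter (fun q => 1 < q) ⊆ Icc 1 D :=
    (filter_subset _ _).trans (filter_subset _ _)
  have hQ := fun q (hq : q ∈ (Level.QQ D).filter (fun q => 1 < q)) =>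
    h q (mem_filter.1 hq).2 (Level.mem_QQ (mem_filter.1 hq).1).2.2
  generalize (Level.QQ D).filter (fun q => 1 < q) = Q at *
  have e : ∀ f : ℕ → ℕ → ℕ → ℕ → ℝ, ∑ m ∈ Icc 1 M, tau m ^ 5 / m * ∑ a ∈ red m,
      ∑ q ∈ Q, tau q ^ 5 / q * ∑ b ∈ red q, f m a q b =
      ∑ i ∈ (Icc 1 M).sigma red, ∑ j ∈ Q.sigma red,
        tau i.1 ^ 5 / i.1 * (tau j.1 ^ 5 / j.1 * f i.1 i.2 j.1 j.2) := fun f => by
    simp only [sum_sigma, mul_sum]
  rw [e fun m a q b => F (l - 1) (ph l (b / q)) (a / m)]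
  refine cs2 _ _ _
    (fun i j => tau j.1 ^ 5 / j.1 * G j.1 j.2 * F k₁ (ph l (j.2 / j.1)) (i.2 / i.1))
    (fun i j => tau i.1 ^ 5 / i.1 * F k₂ (ph (l - 1) (i.2 / i.1)) (10 * (j.2 / j.1)))
    (X := 82 * η ^ 2 * Y ^ 2) (Y := 820 * X ^ 2) (fun i _ j hj => ?_) ?_ ?_ (by positivity)
    (by nlinarith [sq_nonneg (η * (X * Y))])
  · have a := (h2 l k₁ w k₂ (i.2 / i.1) (j.2 / j.1) hl).trans (mul_le_mul_of_nonneg_right
      (mul_le_mul_of_nonneg_left ((hQ _ (mem_sigma.1 hj).1).1 _ (mem_sigma.1 hj).2 _)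
        (F_nonneg ..)) (F_nonneg ..))
    exact (mul_le_mul_of_nonneg_left (mul_le_mul_of_nonneg_left a (Level.tq_nonneg 5 _))
      (Level.tq_nonneg 5 _)).trans (le_of_eq (by ring))
  · calc _ ≤ ∑ j ∈ Q.sigma red, (tau j.1 ^ 5 / j.1) ^ 2 * G j.1 j.2 ^ 2 * 82 := by
          refine sum_le_sum fun j _ => ?_
          have := h1 k₁ M 1 (ph l (j.2 / j.1)) le_rfl hM
          simp only [Nat.cast_one, one_mul, mul_one] at this
          simp only [mul_pow, ← mul_sum, sum_sigma]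
          exact mul_le_mul_of_nonneg_left this (by positivity)
      _ ≤ ∑ q ∈ Q, 82 * η ^ 2 * (tau q ^ 10 / q) := by
          rw [sum_sigma]
          refine sum_le_sum fun q hq => ?_
          have := (sum_le_sum_of_subset_of_nonneg (filter_subset (fun a => Nat.Coprime a q) _)
            fun _ _ _ => sq_nonneg _).trans (hQ q hq).2
          simp only [← sum_mul, ← mul_sum]
          rw [← csq (mem_Icc.1 (sQ hq)).1]
          refine (mul_le_mul_of_nonneg_right (mul_le_mul_of_nonneg_left this (sq_nonneg _))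
            (by norm_num)).trans (le_of_eq (by ring))
      _ ≤ _ := by
          rw [← mul_sum]
          exact mul_le_mul_of_nonneg_left ((sum_le_sum_of_subset_of_nonneg sQ
            fun q _ _ => Level.tq_nonneg 10 q).trans tD) (by positivity)
  · calc _ ≤ ∑ i ∈ (Icc 1 M).sigma red, (tau i.1 ^ 5 / i.1) ^ 2 * 820 := by
          refine sum_le_sum fun i _ => ?_
          have := h1 k₂ D 10 (ph (l - 1) (i.2 / i.1)) (by norm_num) hD
          simp only [mul_pow, ← mul_sum, sum_sigma]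
          refine mul_le_mul_of_nonneg_left ((sum_le_sum_of_subset_of_nonneg sQ
            fun q _ _ => sum_nonneg fun _ _ => sq_nonneg _).trans ?_) (sq_nonneg _)
          norm_num at this ⊢
          exact this
      _ ≤ ∑ m ∈ Icc 1 M, 820 * (tau m ^ 10 / m) := by
          rw [sum_sigma]
          refine sum_le_sum fun m hm => ?_
          have : ((red m).card : ℝ) ≤ m := by
            exact_mod_cast (card_filter_le _ _).trans (card_range m).le
          simp only [sum_const, nsmul_eq_mul]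
          rw [← csq (mem_Icc.1 hm).1]
          exact (mul_le_mul_of_nonneg_right this (by positivity)).trans (le_of_eq (by ring))
      _ ≤ _ := by
          rw [← mul_sum]
          exact mul_le_mul_of_nonneg_left tM (by norm_num)

end Pool.Agent.Emirp.LP
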