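import Pool.Agent.MP_e620c0_nt.lp.Spec

/-! Fourier expansion of the discrepancy and the splitting of the digit product. -/

set_option autoImplicit false

namespace Pool.Agent.Emirp.LP

open Finset Filter Real

namespace Four

theorem blk (y d : ℕ) (x : ℕ → ℝ) (t : ℝ) :
    ‖∑ k ∈ Ico (d * 10 ^ y) ((d + 1) * 10 ^ y), cf (y + 1) x k * e (-(k * t))‖ =
      10 ^ y * F y x t := by
  rw [sum_Ico_eq_sum_range, add_mul, one_mul, Nat.add_sub_cancel_left, ← norm_hat,
    sum_congr rfl (g := fun k => cf 1 (sh y x) d * e (-(d * 10 ^ y * t)) *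
      (cf y x k * e (-(k * t)))) fun k hk => ?_, ← mul_sum, norm_mul, norm_mul, norm_e, cf, norm_e,
    one_mul, one_mul]
  rw [cf_add, mul_comm d, cf_add_pow, Nat.mul_add_div (by positivity),
    Nat.div_eq_of_lt (mem_range.1 hk), add_zero,
    show -(((10 ^ y * d + k : ℕ) : ℝ) * t) = -(d * 10 ^ y * t) + -(k * t) by push_cast; ring, e_add]
  ring

theorem one (y m : ℕ) (hm : 1 ≤ m) (β : ℝ) :
    ‖Level.W (10 ^ (y + 1)) (wm (y + 1) m) (rv (y + 1)) β‖ ≤
      4 * 10 ^ y / m * ∑ a ∈ range m, F y (ph (y + 1) β) (a / m) := by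
  have m0 : (m : ℂ) ≠ 0 := by exact_mod_cast (by omega : m ≠ 0)
  have h : ∀ k : ℕ, (wm (y + 1) m k : ℂ) * e (β * rv (y + 1) k) =
      if k / 10 ^ (y + 1 - 1) ∈ MAIN.DG then
        ∑ a ∈ range m, (m : ℂ)⁻¹ * (cf (y + 1) (ph (y + 1) β) k * e (-(k * (a / m)))) else 0 := by
    intro k
    have o := orth hm (-(k : ℤ))
    rw [sum_congr rfl (g := fun a : ℕ => e (-(k * (a / m)))) fun a _ => by
      congr 1; push_cast; ring] at o
    rw [← mul_sum, ← mul_sum, o, cf_ph, wm]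
    simp only [dvd_neg, Int.natCast_dvd_natCast]
    by_cases a : k / 10 ^ (y + 1 - 1) ∈ MAIN.DG <;> by_cases b : m ∣ k <;>
      simp only [a, b, and_true, and_false, if_true, if_false] <;> push_cast <;> field_simp
    all_goals simp
  rw [Level.W, sum_congr rfl fun k _ => h k, MAIN.sum_cut (by omega), Nat.add_sub_cancel]
  refine (norm_sum_le_of_le _ (n := fun _ => 10 ^ y / m * ∑ a ∈ range m,
    F y (ph (y + 1) β) (a / m)) fun d _ => ?_).trans_eq ?_
  · rw [sum_comm, mul_sum]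
    refine norm_sum_le_of_le _ fun a _ => le_of_eq ?_
    rw [← mul_sum, norm_mul, blk, norm_inv, Complex.norm_natCast]
    ring
  · rw [sum_const, show MAIN.DG.card = 4 from rfl, nsmul_eq_mul]
    push_cast
    ring

theorem Ph_neg (t : ℝ) : Ph (-t) = Ph t := by
  unfold Ph
  rw [← Complex.norm_conj, map_sum]
  simp only [conj_e, mul_neg, neg_neg]

end Four

theorem four : FourStmt := by
  intro l m q hl hm hq
  obtain ⟨y, rfl⟩ : ∃ y, l = y + 1 := ⟨l - 1, by omega⟩
  rw [← Real.norm_eq_abs, ← Complex.norm_real, Level.disc_eq _ _ _ hq, norm_div,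
    Complex.norm_natCast, Nat.add_sub_cancel, sum_comm, ← div_div, div_mul_eq_mul_div, mul_sum]
  exact div_le_div_of_nonneg_right (norm_sum_le_of_le _ fun b _ => Four.one y m hm _)
    q.cast_nonneg

theorem split : SplitStmt := by
  intro l k₁ w k₂ α β h
  obtain ⟨g, rfl⟩ : ∃ g, l = k₁ + w + g + k₂ + 1 := ⟨l - (k₁ + w + k₂ + 1), by omega⟩
  have e : F k₂ (sh (k₁ + w + g) (ph (k₁ + w + g + k₂ + 1) β)) (10 ^ (k₁ + w + g) * α) =
      F k₂ (ph (k₁ + w + g + k₂) α) (10 * β) := by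
    rw [F, F, ← prod_range_reflect]
    refine prod_congr rfl fun i hi => ?_
    obtain ⟨j, rfl⟩ : ∃ j, k₂ = i + j + 1 := ⟨k₂ - 1 - i, by have := mem_range.1 hi; omega⟩
    rw [← Four.Ph_neg, sh, ph, ph, show i + j + 1 - 1 - i = j by omega,
      show k₁ + w + g + (i + j + 1) + 1 - 1 - (k₁ + w + g + j) = i + 1 by omega,
      show k₁ + w + g + (i + j + 1) - 1 - i = k₁ + w + g + j by omega]
    congr 1
    ring
  rw [Nat.add_sub_cancel, F_add, F_add, F_add, e]
  exact mul_le_mul_of_nonneg_right (mul_le_of_le_one_right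
    (mul_nonneg (F_nonneg _ _ _) (F_nonneg _ _ _)) (F_le_one _ _ _)) (F_nonneg _ _ _)

end Pool.Agent.Emirp.LP
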