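import Pool.Agent.MP_e620c0_nt.lp.Spec

/-! A lower bound for the Selberg sum. -/

set_option autoImplicit false

namespace Pool.Agent.Emirp.LP

open Finset Filter Real

namespace Gg

open UniqueFactorizationMonoid

theorem euler {r : ℕ} (hr : r ≠ 0) (t : Finset ℕ)
    (ht : ∀ m ∈ t, m ∈ Nat.factoredNumbers r.primeFactors) :
    ∑ m ∈ t, (m : ℝ)⁻¹ ≤ r / r.totient := by
  let f : ℕ →* ℝ := ⟨⟨fun n => (n : ℝ)⁻¹, by simp⟩, fun a b => by simp [mul_comm]⟩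
  have h := (EulerProduct.summable_and_hasSum_factoredNumbers_prod_filter_prime_geometric
    (f := f) (fun {p} hp => by
      have : (1 : ℝ) < p := by exact_mod_cast hp.one_lt
      change ‖(p : ℝ)⁻¹‖ < 1
      rw [Real.norm_of_nonneg (by positivity)]
      exact inv_lt_one_of_one_lt₀ this) r.primeFactors).2
  have h1 := sum_le_hasSum t (fun m _ => Set.indicator_nonneg (fun a _ => by
    change 0 ≤ (a : ℝ)⁻¹
    positivity) m) (hasSum_subtype_iff_indicator.1 h)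
  rw [sum_congr rfl fun m hm => Set.indicator_of_mem (ht m hm) _,
    filter_true_of_mem fun p hp => Nat.prime_of_mem_primeFactors hp, prod_inv_distrib] at h1
  refine h1.trans_eq ?_
  have h2 : (r.totient : ℝ) = r * ∏ p ∈ r.primeFactors, (1 - (p : ℝ)⁻¹) := by
    have := congrArg (fun q : ℚ => (q : ℝ)) (Nat.totient_eq_mul_prod_factors r)
    simpa using this
  have h3 : (r : ℝ) ≠ 0 := by exact_mod_cast hr
  rw [h2, div_mul_cancel_left₀ h3]
  rfl

theorem fibre (r : ℕ) (s : Finset ℕ) (hs : ∀ n ∈ s, n ≠ 0 ∧ radical n = r) :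
    ∑ n ∈ s, (n : ℝ)⁻¹ ≤ 1 / r.totient := by
  rcases s.eq_empty_or_nonempty with rfl | ⟨n₀, h₀⟩
  · rw [sum_empty]
    positivity
  have sq : Squarefree r := (hs n₀ h₀).2 ▸ squarefree_radical
  have r0 : (r : ℝ) ≠ 0 := by exact_mod_cast sq.ne_zero
  have dv : ∀ n ∈ s, r ∣ n := fun n hn => (hs n hn).2 ▸ radical_dvd_self
  have h := euler sq.ne_zero (s.image (· / r)) fun m hm => by
    obtain ⟨n, hn, rfl⟩ := mem_image.1 hm
    refine Nat.mem_factoredNumbers'.2 fun p hp hd => Nat.mem_primeFactors.2 ⟨hp, ?_, sq.ne_zero⟩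
    rw [← (hs n hn).2]
    exact (dvd_radical_iff_of_irreducible hp.prime.irreducible (hs n hn).1).2
      (hd.trans (Nat.div_dvd_of_dvd (dv n hn)))
  rw [sum_image fun a ha b hb e => (Nat.div_left_inj (dv a ha) (dv b hb)).1 e] at h
  have h1 : ∑ n ∈ s, (n : ℝ)⁻¹ = (r : ℝ)⁻¹ * ∑ n ∈ s, ((n / r : ℕ) : ℝ)⁻¹ := by
    rw [mul_sum]
    refine sum_congr rfl fun n hn => ?_
    rw [Nat.cast_div (dv n hn) r0]
    field_simp
  rw [h1]
  refine (mul_le_mul_of_nonneg_left h (by positivity)).trans_eq ?_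
  field_simp

theorem cop_le (ξ : ℕ) :
    ∑ n ∈ (Icc 1 ξ).filter (fun n => Nat.Coprime n 330), (n : ℝ)⁻¹ ≤ GG ξ := by
  rw [← sum_fiberwise_of_maps_to (g := fun n : ℕ => radical n) (t := DD ξ) fun n hn => ?_]
  · refine sum_le_sum fun r _ => fibre r _ fun n hn => ⟨?_, (mem_filter.1 hn).2⟩
    have := (mem_Icc.1 (mem_filter.1 (mem_filter.1 hn).1).1).1
    omega
  · obtain ⟨h1, h2⟩ := mem_filter.1 hn
    obtain ⟨h3, h4⟩ := mem_Icc.1 h1
    have sq : Squarefree (radical n) := squarefree_radical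
    exact mem_filter.2 ⟨mem_Icc.2 ⟨Nat.pos_of_ne_zero sq.ne_zero,
      (Nat.le_of_dvd h3 radical_dvd_self).trans h4⟩, sq, h2.coprime_dvd_left radical_dvd_self⟩

theorem split (q : ℕ) (hq : q ≠ 0) (n : ℕ) : ∃ x : ℕ × ℕ, n ≠ 0 →
    x.1 * x.2 = n ∧ x.1 ∈ Nat.factoredNumbers q.primeFactors ∧ Nat.Coprime x.2 q := by
  induction n using Nat.strong_induction_on with
  | _ n ih =>
    by_cases h : Nat.Coprime n q
    · exact ⟨(1, n), fun _ => ⟨one_mul _, Nat.mem_factoredNumbers'.2 fun p hp hd =>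
        absurd (Nat.dvd_one.1 hd) hp.ne_one, h⟩⟩
    rcases eq_or_ne n 0 with rfl | h0
    · exact ⟨(0, 0), fun h => absurd rfl h⟩
    obtain ⟨p, hp, ⟨k, rfl⟩, h2⟩ := Nat.Prime.not_coprime_iff_dvd.1 h
    have k0 : k ≠ 0 := right_ne_zero_of_mul h0
    obtain ⟨x, hx⟩ := ih k (lt_mul_left (Nat.pos_of_ne_zero k0) hp.one_lt)
    obtain ⟨a, b, c⟩ := hx k0
    refine ⟨(p * x.1, x.2), fun _ => ⟨by rw [mul_assoc, a], Nat.mem_factoredNumbers'.2
      fun r hr hd => ?_, c⟩⟩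
    rcases (Nat.Prime.dvd_mul hr).1 hd with e | e
    · exact Nat.mem_primeFactors.2 ⟨hr, e.trans h2, hq⟩
    · exact Nat.mem_factoredNumbers'.1 b r hr e

theorem harm_le (q : ℕ) (hq : q ≠ 0) (ξ : ℕ) : ∑ n ∈ Icc 1 ξ, (n : ℝ)⁻¹ ≤
    q / q.totient * ∑ n ∈ (Icc 1 ξ).filter (fun n => Nat.Coprime n q), (n : ℝ)⁻¹ := by
  choose x hx using split q hq
  have h0 : ∀ n ∈ Icc 1 ξ, n ≠ 0 := fun n hn => by
    have := (mem_Icc.1 hn).1
    omega
  refine le_trans ?_ (mul_le_mul_of_nonneg_right (euler hq ((Icc 1 ξ).image fun n => (x n).1)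
    fun m hm => ?_) (sum_nonneg fun _ _ => by positivity))
  · rw [sum_mul_sum, ← sum_product']
    have e : ∑ n ∈ Icc 1 ξ, (n : ℝ)⁻¹ =
        ∑ y ∈ (Icc 1 ξ).image x, (y.1 : ℝ)⁻¹ * (y.2 : ℝ)⁻¹ := by
      rw [sum_image fun a ha b hb e => by
        rw [← (hx a (h0 a ha)).1, ← (hx b (h0 b hb)).1, e]]
      refine sum_congr rfl fun n hn => ?_
      rw [← mul_inv, ← Nat.cast_mul, (hx n (h0 n hn)).1]
    rw [e]
    refine sum_le_sum_of_subset_of_nonneg (fun y hy => ?_) fun _ _ _ => by positivity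
    obtain ⟨n, hn, rfl⟩ := mem_image.1 hy
    obtain ⟨a, -, c⟩ := hx n (h0 n hn)
    have d : (x n).2 ∣ n := Dvd.intro_left _ a
    have n0 := Nat.pos_of_ne_zero (h0 n hn)
    exact mem_product.2 ⟨mem_image_of_mem _ hn, mem_filter.2 ⟨mem_Icc.2
      ⟨Nat.pos_of_dvd_of_pos d n0, (Nat.le_of_dvd n0 d).trans (mem_Icc.1 hn).2⟩, c⟩⟩
  · obtain ⟨n, hn, rfl⟩ := mem_image.1 hm
    exact (hx n (h0 n hn)).2.1

end Gg

theorem gg : GgStmt := by
  refine ⟨0, fun ξ hξ => ?_⟩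
  have h1 : log ξ ≤ ∑ n ∈ Icc 1 ξ, (n : ℝ)⁻¹ := by
    refine le_trans (Real.log_le_log (by exact_mod_cast hξ) (by simp))
      ((log_add_one_le_harmonic ξ).trans_eq ?_)
    simp [harmonic_eq_sum_Icc]
  have h2 := Gg.harm_le 330 (by norm_num) ξ
  have h3 : Nat.totient 330 = 80 := by simp +decide
  have h4 := Gg.cop_le ξ
  rw [h3] at h2
  push_cast at h2
  linarith

end Pool.Agent.Emirp.LP
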