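import Pool.Agent.MP_e620c0_nt.lp.Spec

/-! The sieve bound with its parameters chosen, and the numerical constant. -/

set_option autoImplicit false

namespace Pool.Agent.Emirp.LP

open Finset Filter Real

namespace Lev

theorem ar {P M S μ G d L : ℝ} (hP : 0 < P) (hM : 16 * M ≤ 8 / 33000 * P) (hS : 0 ≤ S)
    (hμ : S ≤ μ) (hd : 0 < d) (hL : 0 < L)
    (hG : 8 / 33 * d * (L / 162) * (999 / 1000) ≤ G) :
    (8 / 33 * P + 16 * M) * S / G ≤ 1624 / 10 / d * (P * μ / L) := by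
  have h0 : 0 ≤ μ := hS.trans hμ
  have h1 : (8 / 33 * P + 16 * M) * S ≤ 8 / 33 * (1001 / 1000) * P * μ :=
    mul_le_mul (by linarith) hμ hS (by positivity)
  refine (div_le_div₀ (by positivity) h1 (by positivity) hG).trans ?_
  rw [div_mul_div_comm (1624 / 10) d, div_le_div_iff₀ (by positivity) (by positivity)]
  have : 0 ≤ P * μ * (d * L) := by positivity
  linarith

theorem numQ : ∑ i ∈ Icc (19 : ℕ) 20, (1624 / 10 / (40 - i) * (1001 / 80000) : ℚ) +
    ∑ i ∈ Icc (1 : ℕ) 18, ∑ j ∈ Icc (1 : ℕ) 20,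
      400 / (399 - 5 * i) * (1624 / 10 / (40 - ((i + j : ℕ) : ℚ)) * (1001 / 80000) ^ 2) ≤
      886 / 1000 := by
  decide +kernel

end Lev

theorem num : NumStmt := by
  have := (Rat.cast_le (K := ℝ)).2 Lev.numQ
  unfold NumStmt
  push_cast at this ⊢
  exact this

theorem lev (h1 : GgStmt) (h2 : BtStmt) : LevStmt := by
  obtain ⟨C, hC⟩ := h1
  filter_upwards [h2 5, eventually_ge_atTop (10 ^ 6),
    tendsto_natCast_atTop_atTop.eventually_ge_atTop (162000 * (1 + 3 * |C|) : ℝ)]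
    with l hl l1 l2 s α W μ hs hW hα hμ
  have t1 : 2 * (s * tt l) + 4 + l / 2000 + 4 * ((40 - s) * (l / 162)) + 1 ≤ l ∧
      s * tt l + 5 ≤ l := by
    unfold tt
    interval_cases s <;> omega
  have a1 : (33 * 10 ^ (s * tt l)) ^ 2 ≤ 10 ^ (2 * (s * tt l) + 4) := by
    rw [mul_pow, ← pow_mul, pow_add, mul_comm (s * tt l) 2, mul_comm]
    exact Nat.mul_le_mul_left _ (by norm_num)
  have a2 : (10 ^ ((40 - s) * (l / 162))) ^ 4 ≤ 10 ^ (4 * ((40 - s) * (l / 162))) := by
    rw [← pow_mul, mul_comm]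
  have x1 : 1 ≤ 10 ^ ((40 - s) * (l / 162)) := Nat.one_le_pow _ _ (by norm_num)
  refine (hl _ _ _ _ α W x1 a1 a2 t1.1 hW hα).trans (add_le_add_left ?_ _)
  have hL := Good.log_ten_ge
  have s38 : (s : ℝ) ≤ 38 := by exact_mod_cast hs
  have l0 : (0 : ℝ) < l := by
    have : 0 < l := by omega
    exact_mod_cast this
  refine Lev.ar (by positivity) ?_
    (sum_nonneg fun m _ => div_nonneg (hα m).1 (Nat.cast_nonneg m)) hμ (by linarith)
    (by positivity) ((hC _ x1).trans' ?_)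
  · have : (10 : ℝ) ^ (s * tt l + 5) ≤ 10 ^ l := pow_le_pow_right₀ (by norm_num) t1.2
    rw [pow_add] at this
    have p : (0 : ℝ) < 10 ^ l := by positivity
    push_cast
    linarith
  · have r1 : (l : ℝ) / 162 - 1 ≤ (l / 162 : ℕ) := by
      have : l ≤ 162 * (l / 162) + 162 := by omega
      have : (l : ℝ) ≤ 162 * (l / 162 : ℕ) + 162 := by exact_mod_cast this
      linarith
    rw [Nat.cast_pow, log_pow, Nat.cast_mul, Nat.cast_sub (by omega)]
    generalize ((l / 162 : ℕ) : ℝ) = r at r1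
    push_cast
    have c0 := abs_nonneg C
    have c1 := le_abs_self C
    have d2 : 2 * 1 ≤ (40 - (s : ℝ)) * log 10 :=
      mul_le_mul (by linarith) hL (by norm_num) (by linarith)
    have d3 : 2 * 1 * (3 * |C|) ≤ (40 - (s : ℝ)) * log 10 * (r - 999 / 1000 * (l / 162)) :=
      mul_le_mul d2 (by linarith) (by positivity) (by linarith)
    linarith

end Pool.Agent.Emirp.LP
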