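import Pool.Agent.MP_e620c0_nt.lp.Spec

/-! A large sieve inequality for the digit transform. -/

set_option autoImplicit false

namespace Pool.Agent.Emirp.LP

open Finset Filter Real

namespace Ls

lemma parts (c φ : ℕ → ℂ) (K : ℕ) (δ : ℝ) (h1 : ∀ k, ‖φ k‖ = 1)
    (h2 : ∀ k, ‖φ (k + 1) - φ k‖ ≤ δ) :
    ‖∑ k ∈ range K, φ k * c k‖ ^ 2 ≤ 2 * ‖∑ k ∈ range K, c k‖ ^ 2 +
      2 * δ ^ 2 * K * ∑ i ∈ range (K - 1), ‖∑ k ∈ range (i + 1), c k‖ ^ 2 := by
  have e1 := sum_range_by_parts φ c K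
  simp only [smul_eq_mul] at e1
  have b1 : ‖∑ k ∈ range K, φ k * c k‖ ≤ ‖∑ k ∈ range K, c k‖ +
      δ * ∑ i ∈ range (K - 1), ‖∑ k ∈ range (i + 1), c k‖ := by
    rw [e1]
    refine (norm_sub_le _ _).trans (add_le_add ?_ ?_)
    · rw [norm_mul, h1, one_mul]
    · rw [mul_sum]
      refine (norm_sum_le _ _).trans (sum_le_sum fun i _ => ?_)
      rw [norm_mul]
      exact mul_le_mul_of_nonneg_right (h2 i) (norm_nonneg _)
  have b2 : (∑ i ∈ range (K - 1), ‖∑ k ∈ range (i + 1), c k‖) ^ 2 ≤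
      K * ∑ i ∈ range (K - 1), ‖∑ k ∈ range (i + 1), c k‖ ^ 2 := by
    refine sq_sum_le_card_mul_sum_sq.trans (mul_le_mul_of_nonneg_right ?_ (by positivity))
    rw [card_range]
    exact_mod_cast Nat.sub_le K 1
  have b3 := pow_le_pow_left₀ (norm_nonneg _) b1 2
  have b4 := mul_le_mul_of_nonneg_left b2 (sq_nonneg δ)
  nlinarith [sq_nonneg (‖∑ k ∈ range K, c k‖ -
    δ * ∑ i ∈ range (K - 1), ‖∑ k ∈ range (i + 1), c k‖)]

lemma pars2 (c : ℕ → ℂ) (hc : ∀ k, ‖c k‖ = 1) {v K T : ℕ} (hv : 1 ≤ v) (hK : 0 < K) (hT : T ≤ K) :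
    ∑ i ∈ range (v * K), ‖∑ k ∈ range T, c k * e (-(k * (v * (i / (v * K : ℕ)))))‖ ^ 2 ≤
      (v * K : ℕ) * (K : ℝ) := by
  refine (pars_gen T c (m := v * K) (Nat.mul_pos hv hK) v).trans
    (mul_le_mul_of_nonneg_left ?_ (Nat.cast_nonneg _))
  have a : ∀ k ∈ range T, ∑ k' ∈ range T,
      (if ((v * K : ℕ) : ℤ) ∣ v * ((k' : ℤ) - k) then ‖c k‖ * ‖c k'‖ else 0) ≤ (1 : ℝ) := by
    intro k hk
    have b : ∀ k' ∈ range T,
        (if ((v * K : ℕ) : ℤ) ∣ v * ((k' : ℤ) - k) then ‖c k‖ * ‖c k'‖ else 0) ≤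
          if k' = k then (1 : ℝ) else 0 := by
      intro k' hk'
      by_cases d : ((v * K : ℕ) : ℤ) ∣ v * ((k' : ℤ) - k)
      · have d2 : (K : ℤ) ∣ (k' : ℤ) - k := by
          push_cast at d
          exact Int.dvd_of_mul_dvd_mul_left (by omega) d
        have k1 := mem_range.1 hk
        have k2 := mem_range.1 hk'
        have d3 : (k' : ℤ) - k = 0 := Int.eq_zero_of_abs_lt_dvd d2 (abs_lt.2 ⟨by omega, by omega⟩)
        rw [if_pos d, if_pos (by omega), hc, hc, mul_one]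
      · rw [if_neg d]
        split_ifs <;> norm_num
    refine (sum_le_sum b).trans ?_
    rw [sum_ite_eq', if_pos hk]
  refine (sum_le_sum a).trans ?_
  rw [sum_const, card_range, nsmul_eq_mul, mul_one]
  exact_mod_cast hT

lemma half {N h m a m' a' : ℕ} (hm : 0 < m) (hm' : 0 < m') (hN : m * m' ≤ N)
    (e1 : N * a / m = h) (e2 : N * a' / m' = h) : a' * m ≤ a * m' := by
  by_contra c
  have c1 : a * m' + 1 ≤ a' * m := by omega
  have p1 : m * h ≤ N * a := e1 ▸ Nat.mul_div_le _ _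
  have p2 : N * a' < m' * (h + 1) := e2 ▸ Nat.lt_mul_div_succ _ hm'
  have q1 : m * h * m' ≤ N * a * m' := Nat.mul_le_mul_right _ p1
  have q2 : N * a' * m < m' * (h + 1) * m := Nat.mul_lt_mul_of_pos_right p2 hm
  have q3 : N * (a * m' + 1) ≤ N * (a' * m) := Nat.mul_le_mul_left _ c1
  nlinarith

end Ls

theorem ls : LsStmt := by
  intro y Q v x hv hQ
  set K : ℕ := 10 ^ y with hKd
  have hK : 0 < K := by positivity
  have hK' : (0 : ℝ) < K := by exact_mod_cast hK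
  have hv' : (0 : ℝ) < v := by exact_mod_cast hv
  set N : ℕ := v * K with hNd
  have hN' : (N : ℝ) = v * K := by rw [hNd]; push_cast; ring
  have hN0 : (0 : ℝ) < N := by rw [hN']; positivity
  let P : ℕ → ℕ → ℂ := fun i T => ∑ k ∈ range T, cf y x k * e (-(k * (v * (i / (N : ℝ)))))
  let B : ℕ → ℝ := fun i => 2 * ‖P i K‖ ^ 2 +
    2 * (2 * π / K) ^ 2 * K * ∑ T ∈ range (K - 1), ‖P i (T + 1)‖ ^ 2
  have B0 : ∀ i, 0 ≤ B i := fun i => by positivity
  have hB : ∑ i ∈ range N, B i ≤ 82 * v * (K : ℝ) ^ 2 := by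
    have a1 : ∑ i ∈ range N, ‖P i K‖ ^ 2 ≤ N * (K : ℝ) := Ls.pars2 _ (norm_cf y x) hv hK le_rfl
    have a2 : ∑ i ∈ range N, ∑ T ∈ range (K - 1), ‖P i (T + 1)‖ ^ 2 ≤ K * (N * (K : ℝ)) := by
      rw [sum_comm]
      refine (sum_le_sum (g := fun _ => N * (K : ℝ)) fun T hT =>
        Ls.pars2 _ (norm_cf y x) hv hK (by have := mem_range.1 hT; omega)).trans ?_
      rw [sum_const, card_range, nsmul_eq_mul]
      refine mul_le_mul_of_nonneg_right ?_ (by positivity)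
      exact_mod_cast Nat.sub_le K 1
    have a3 : π ^ 2 ≤ 10 := by nlinarith [pi_lt_d2, pi_pos]
    simp only [B]
    rw [sum_add_distrib, ← mul_sum, ← mul_sum]
    calc _ ≤ 2 * (N * (K : ℝ)) + 2 * (2 * π / K) ^ 2 * K * (K * (N * (K : ℝ))) := by gcongr
      _ = (2 + 8 * π ^ 2) * (v * (K : ℝ) ^ 2) := by rw [hN']; field_simp; ring
      _ ≤ 82 * (v * (K : ℝ) ^ 2) := by gcongr; linarith
      _ = _ := by ring
  have key : ∀ m a : ℕ, 0 < m → (K : ℝ) ^ 2 * F y x (v * (a / m)) ^ 2 ≤ B (N * a / m) := by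
    intro m a hm
    have hm' : (0 : ℝ) < m := by exact_mod_cast hm
    set i := N * a / m with hi
    have p1 : (m : ℝ) * i ≤ N * a := by exact_mod_cast Nat.mul_div_le (N * a) m
    have p2 : (N : ℝ) * a < m * (i + 1) := by exact_mod_cast Nat.lt_mul_div_succ (N * a) hm
    set σ : ℝ := a / m - i / N with hσ
    have s0 : 0 ≤ σ := by
      rw [hσ, sub_nonneg, div_le_div_iff₀ hN0 hm']
      linarith
    have s1 : σ ≤ 1 / N := by
      rw [hσ, sub_le_iff_le_add, ← add_div, div_le_div_iff₀ hm' hN0]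
      linarith
    have s2 : v * σ ≤ 1 / K := by
      refine (mul_le_mul_of_nonneg_left s1 hv'.le).trans (le_of_eq ?_)
      rw [hN']
      field_simp
    have ab := Ls.parts (fun k => cf y x k * e (-(k * (v * (i / (N : ℝ))))))
      (fun k => e (-(k * (v * σ)))) K (2 * π / K) (fun k => norm_e _) (fun k => by
        refine (norm_e_sub _ _).trans ?_
        have : -(((k + 1 : ℕ) : ℝ) * (v * σ)) - -(k * (v * σ)) = -(v * σ) := by push_cast; ring
        rw [this, abs_neg, abs_of_nonneg (by positivity), div_eq_mul_one_div]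
        gcongr)
    have e1 : ∑ k ∈ range K, e (-(k * (v * σ))) * (cf y x k * e (-(k * (v * (i / (N : ℝ)))))) =
        ∑ k ∈ range (10 ^ y), cf y x k * e (-(k * (v * (a / m)))) := by
      refine sum_congr rfl fun k _ => ?_
      rw [mul_left_comm, ← e_add]
      congr 2
      rw [hσ]
      ring
    rw [e1, norm_hat, mul_pow] at ab
    have e2 : (K : ℝ) = 10 ^ y := by rw [hKd]; push_cast; ring
    rw [← e2] at ab
    exact ab
  have inj : Set.InjOn (fun p : (Σ _ : ℕ, ℕ) => N * p.2 / p.1) ((Icc 1 Q).sigma red : Finset _) := by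
    rintro ⟨m, a⟩ hp ⟨m', a'⟩ hq he
    obtain ⟨p1, p2⟩ := mem_sigma.1 (mem_coe.1 hp)
    obtain ⟨q1, q2⟩ := mem_sigma.1 (mem_coe.1 hq)
    have c1 : Nat.Coprime a m := (mem_filter.1 p2).2
    have c2 : Nat.Coprime a' m' := (mem_filter.1 q2).2
    obtain ⟨m1, m2⟩ : 1 ≤ m ∧ m ≤ Q := mem_Icc.1 p1
    obtain ⟨n1, n2⟩ : 1 ≤ m' ∧ m' ≤ Q := mem_Icc.1 q1
    have hN : m * m' ≤ N := by
      calc m * m' ≤ Q * Q := Nat.mul_le_mul m2 n2
        _ = Q ^ 2 := (sq Q).symm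
        _ ≤ K := hQ
        _ ≤ N := Nat.le_mul_of_pos_left K hv
    have he' : N * a / m = N * a' / m' := he
    have e1 : a' * m = a * m' := le_antisymm (Ls.half m1 n1 hN he' rfl)
      (Ls.half n1 m1 (mul_comm m m' ▸ hN) rfl he')
    have d1 : m ∣ m' := c1.symm.dvd_of_dvd_mul_left ⟨a', by rw [← e1, mul_comm]⟩
    have d2 : m' ∣ m := c2.symm.dvd_of_dvd_mul_left ⟨a, by rw [e1, mul_comm]⟩
    obtain rfl : m = m' := Nat.dvd_antisymm d1 d2
    obtain rfl : a' = a := Nat.eq_of_mul_eq_mul_right m1 e1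
    rfl
  refine le_of_mul_le_mul_left ?_ (pow_pos hK' 2)
  rw [sum_sigma', mul_sum]
  calc _ ≤ ∑ p ∈ (Icc 1 Q).sigma red, B (N * p.2 / p.1) :=
        sum_le_sum fun p hp => key p.1 p.2 (mem_Icc.1 (mem_sigma.1 hp).1).1
    _ = ∑ i ∈ ((Icc 1 Q).sigma red).image (fun p : (Σ _ : ℕ, ℕ) => N * p.2 / p.1), B i :=
        (sum_image inj).symm
    _ ≤ ∑ i ∈ range N, B i := by
        refine sum_le_sum_of_subset_of_nonneg (fun i hi => ?_) (fun i _ _ => B0 i)
        obtain ⟨p, hp, rfl⟩ := mem_image.1 hi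
        have a1 : p.2 < p.1 := mem_range.1 (mem_filter.1 (mem_sigma.1 hp).2).1
        refine mem_range.2 (Nat.div_lt_of_lt_mul ?_)
        rw [mul_comm p.1]
        exact Nat.mul_lt_mul_of_pos_left a1 (Nat.mul_pos hv hK)
    _ ≤ _ := hB.trans (le_of_eq (by ring))

end Pool.Agent.Emirp.LP
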