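import Pool.Agent.MP_e620c0_nt.lp.Spec

/-! The middle window of digits gives a saving of any power, in mean square over numerators. -/

set_option autoImplicit false

namespace Pool.Agent.Emirp.LP

open Finset Filter Real

namespace Mid

theorem shift {l s w q : ℕ} (h : s + w ≤ l) (hq : 0 < q) (b : ℕ) (t : ℝ) :
    F w (sh s (ph l (b / q))) t = F w (ph w ((b * 10 ^ (l - s - w) % q : ℕ) / q)) t := by
  refine prod_congr rfl fun i hi => ?_
  have hi' := mem_range.1 hi
  have hq' : (q : ℝ) ≠ 0 := by exact_mod_cast hq.ne'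
  have e : (b : ℝ) * 10 ^ (l - s - w) =
      q * (b * 10 ^ (l - s - w) / q : ℕ) + (b * 10 ^ (l - s - w) % q : ℕ) := by
    exact_mod_cast (Nat.div_add_mod (b * 10 ^ (l - s - w)) q).symm
  rw [← Ph_int (ph w _ i - 10 ^ i * t) ((b * 10 ^ (l - s - w) / q * 10 ^ (w - 1 - i) : ℕ) : ℤ)]
  congr 1
  simp only [sh, ph]
  rw [show l - 1 - (s + i) = l - s - w + (w - 1 - i) by omega, pow_add, ← mul_assoc,
    div_mul_eq_mul_div (b : ℝ), e, Int.cast_natCast, Nat.cast_mul, Nat.cast_pow]
  field_simp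
  push_cast
  ring

theorem of_mix {w : ℕ} {x : ℕ → ℝ} {B : ℝ} (h : Mix w x B) (hB : exp (2 / 5 * L0 w) ≤ B) (t : ℝ) :
    F w x t ≤ exp (-(20 * L0 w)) := by
  have h1 := kap_le w
  have h2 := h.2.2 0 t (by omega)
  have e : sh 0 x = x := funext fun i => by simp [sh]
  rw [e] at h2
  refine (F_mono (by omega : 2050 * kap w ≤ w) x t).trans
    (le_of_sq_le_sq (h2.trans ?_) (exp_pos _).le)
  calc 1 / B ^ 100 ≤ 1 / exp (2 / 5 * L0 w) ^ 100 := by gcongr
    _ = _ := by
      rw [← exp_nat_mul, ← exp_nat_mul, one_div, ← exp_neg]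
      congr 1
      push_cast
      ring

theorem exp_le (w : ℕ) : exp (2 / 5 * L0 w) ≤ 10 ^ kap w := by
  have h1 : (L0 w : ℝ) ≤ kap w := by exact_mod_cast Good.L0_le w
  have h2 : (0 : ℝ) ≤ L0 w := Nat.cast_nonneg _
  calc _ ≤ exp (kap w * 1) := exp_le_exp.2 (by linarith)
    _ = exp 1 ^ kap w := exp_nat_mul _ _
    _ ≤ _ := pow_le_pow_left₀ (exp_pos _).le (by linarith [exp_one_lt_d9]) _

end Mid

open Mid

theorem mid : MidStmt := by
  classical
  intro A
  have ht : Tendsto (fun l : ℕ => l / 2000) atTop atTop :=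
    tendsto_atTop_atTop.2 fun b => ⟨2000 * b, fun a h => by omega⟩
  filter_upwards [ht.eventually (small decay), ht.eventually (bad decay),
    ht.eventually (pow_le_exp_L0 (4 * A + 2) (c := 1 / 5000) (by norm_num)),
    ht.eventually_ge_atTop 2001] with l h1 h2 h3 h4 s hs
  set w := l / 2000 with hw
  refine ⟨fun q b => if q ≤ 10 ^ L0 w ∨
      Mix w (ph w ((b * 10 ^ (l - s - w) % q : ℕ) / q)) (10 ^ kap w) then exp (-(20 * L0 w)) else 1,
    fun q b => by positivity, fun q hq hc => ⟨fun b hb t => ?_, ?_⟩⟩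
  · have hq0 : 0 < q := by omega
    dsimp only
    split_ifs with h
    · rw [shift hs hq0]
      rcases h with h | h
      · refine of_mix (h1 q _ hq h hc ?_) le_rfl t
        have c1 : Nat.Coprime (b * 10 ^ (l - s - w)) q := Nat.Coprime.mul_left (mem_filter.1 hb).2
          (Nat.Coprime.pow_left _ (hc.coprime_dvd_right (by norm_num)).symm)
        rwa [Nat.Coprime, ← Nat.gcd_rec, Nat.gcd_comm]
      · exact of_mix h (exp_le w) t
    · exact F_le_one _ _ _
  · have hq0 : 0 < q := by omega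
    have hq' : (0 : ℝ) < q := by exact_mod_cast hq0
    have w1 : (2001 : ℝ) ≤ w := by exact_mod_cast h4
    have l1 : l ≤ w ^ 2 := by
      have : 2001 * w ≤ w * w := Nat.mul_le_mul_right _ h4
      rw [sq]
      omega
    have l2 : (l : ℝ) ≤ (w : ℝ) ^ 2 := by exact_mod_cast l1
    have l3 : (0 : ℝ) < l := by exact_mod_cast (by omega : 0 < l)
    have hb : (((range q).filter fun b => ¬ (q ≤ 10 ^ L0 w ∨
        Mix w (ph w ((b * 10 ^ (l - s - w) % q : ℕ) / q)) (10 ^ kap w))).card : ℝ) ≤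
        2 * w * q * exp (-(L0 w / 5000)) := by
      by_cases h : q ≤ 10 ^ L0 w
      · rw [filter_false_of_mem fun b _ hb => hb (Or.inl h), card_empty, Nat.cast_zero]
        positivity
      · refine le_trans ?_ (h2 q (not_le.1 h) hc)
        refine Nat.cast_le.2 (card_le_card_of_injOn (fun b => b * 10 ^ (l - s - w) % q)
          (fun b hb => ?_) fun a ha b hb e => ?_)
        · exact mem_coe.2 (mem_filter.2 ⟨mem_range.2 (Nat.mod_lt _ hq0),
            fun hm => (mem_filter.1 (mem_coe.1 hb)).2 (Or.inr hm)⟩)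
        · exact (Nat.ModEq.cancel_right_of_coprime
            (Nat.Coprime.pow_right _ (hc.coprime_dvd_right (by norm_num))) e).eq_of_lt_of_lt
            (mem_range.1 (mem_filter.1 (mem_coe.1 ha)).1)
            (mem_range.1 (mem_filter.1 (mem_coe.1 hb)).1)
    have hE : exp (-(20 * L0 w)) ^ 2 ≤ w * exp (-(L0 w / 5000)) := by
      have h0 : (0 : ℝ) ≤ L0 w := Nat.cast_nonneg _
      rw [← exp_nat_mul]
      refine le_trans (exp_le_exp.2 ?_) (le_mul_of_one_le_left (exp_pos _).le (by linarith))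
      push_cast
      linarith
    have hN : 3 * w * exp (-(L0 w / 5000)) ≤ (1 / (l : ℝ) ^ A) ^ 2 := by
      rw [exp_neg, ← div_eq_mul_inv, div_pow, one_pow, div_le_div_iff₀ (exp_pos _) (by positivity),
        one_mul, show (L0 w : ℝ) / 5000 = 1 / 5000 * L0 w by ring]
      refine le_trans ?_ h3
      calc 3 * (w : ℝ) * ((l : ℝ) ^ A) ^ 2 ≤ w * w * (((w : ℝ) ^ 2) ^ A) ^ 2 := by
            gcongr
            linarith
        _ = _ := by ring
    simp only [ite_pow, one_pow]
    rw [sum_ite, sum_const, sum_const, nsmul_eq_mul, nsmul_eq_mul, mul_one]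
    have hc1 : (((range q).filter fun b => q ≤ 10 ^ L0 w ∨
        Mix w (ph w ((b * 10 ^ (l - s - w) % q : ℕ) / q)) (10 ^ kap w)).card : ℝ) ≤ q := by
      exact_mod_cast (card_filter_le _ _).trans (card_range q).le
    calc _ ≤ q * (w * exp (-(L0 w / 5000))) + 2 * w * q * exp (-(L0 w / 5000)) :=
          add_le_add (mul_le_mul hc1 hE (by positivity) hq'.le) hb
      _ = q * (3 * w * exp (-(L0 w / 5000))) := by ring
      _ ≤ _ := mul_le_mul_of_nonneg_left hN hq'.le

end Pool.Agent.Emirp.LP
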