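import Pool.Agent.MP_e620c0_nt.lp.Spec

/-! The majorant for smooth numbers. -/

set_option autoImplicit false

namespace Pool.Agent.Emirp.LP

open Finset Filter Real

namespace Mj

lemma fA_apply (l i q : ℕ) : fA l i q =
    if q.Prime ∧ 10 ^ ((i - 1) * tt l) < q ∧ q ≤ 10 ^ (i * tt l) then log q else 0 := rfl

lemma fA_nonneg (l i q : ℕ) : 0 ≤ fA l i q := by
  rw [fA_apply]
  split_ifs
  · exact Real.log_natCast_nonneg q
  · exact le_rfl

lemma fA_ne (l i q : ℕ) (h : fA l i q ≠ 0) : q ≤ 10 ^ (i * tt l) := by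
  rw [fA_apply] at h
  by_contra hc
  apply h
  rw [if_neg]
  exact fun hh => hc hh.2.2

lemma box (l q : ℕ) (hq : q.Prime) (h4 : q ^ 4 ≤ 10 ^ l) :
    log q ≤ ∑ i ∈ Icc 1 20, fA l i q := by
  classical
  have h20 : q ≤ 10 ^ (20 * tt l) := by
    by_contra hc
    have hc' : 10 ^ (20 * tt l) < q := not_le.mp hc
    have h1 : (10 ^ (20 * tt l)) ^ 4 < q ^ 4 := Nat.pow_lt_pow_left hc' (by norm_num)
    have h2 : 10 ^ l ≤ (10 ^ (20 * tt l)) ^ 4 := by
      rw [← pow_mul]
      apply Nat.pow_le_pow_right (by norm_num)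
      unfold tt
      omega
    omega
  have hex : ∃ i, q ≤ 10 ^ (i * tt l) := ⟨20, h20⟩
  have hi := Nat.find_spec hex
  have hle : Nat.find hex ≤ 20 := Nat.find_min' hex h20
  have hpos : 1 ≤ Nat.find hex := by
    by_contra hc
    have h0 : Nat.find hex = 0 := by omega
    rw [h0] at hi
    have := hq.two_le
    simp at hi
    omega
  have hlt : 10 ^ ((Nat.find hex - 1) * tt l) < q := by
    have := Nat.find_min hex (m := Nat.find hex - 1) (by omega)
    exact not_le.mp this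
  have hval : fA l (Nat.find hex) q = log q := by
    rw [fA_apply, if_pos ⟨hq, hlt, hi⟩]
  rw [← hval]
  exact Finset.single_le_sum (f := fun i => fA l i q) (fun i _ => fA_nonneg l i q)
    (Finset.mem_Icc.mpr ⟨hpos, hle⟩)

lemma sumlog (l k : ℕ) (hk : k ≠ 0) (hb : ∀ b : ℕ, l ^ 2 < b → ¬ b ^ 2 ∣ k) :
    log k - 4 * log l ≤ ∑ q ∈ k.primeFactors, log q := by
  obtain ⟨a, b, hab, hsq⟩ := Nat.sq_mul_squarefree k
  have hb0 : b ≠ 0 := by
    rintro rfl
    simp at hab
    exact hk hab.symm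
  have ha0 : a ≠ 0 := hsq.ne_zero
  have hbl : b ≤ l ^ 2 := by
    by_contra hc
    exact hb b (not_le.mp hc) ⟨a, hab.symm⟩
  have h1 : log k = 2 * log b + log a := by
    rw [← hab]
    push_cast
    rw [Real.log_mul (by positivity) (by positivity), Real.log_pow]
    norm_num
  have h2 : log b ≤ 2 * log l := by
    have : (b : ℝ) ≤ (l : ℝ) ^ 2 := by exact_mod_cast hbl
    have h3 := Real.log_le_log (by positivity) this
    rw [Real.log_pow] at h3
    exact_mod_cast h3
  have h3 : log a = ∑ q ∈ a.primeFactors, log q := by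
    conv_lhs => rw [← Nat.prod_primeFactors_of_squarefree hsq]
    push_cast
    rw [Real.log_prod]
    intro q hq
    have := (Nat.prime_of_mem_primeFactors hq).pos
    positivity
  have h4 : ∑ q ∈ a.primeFactors, log q ≤ ∑ q ∈ k.primeFactors, log (q : ℝ) := by
    apply Finset.sum_le_sum_of_subset_of_nonneg
    · exact Nat.primeFactors_mono ⟨b ^ 2, by rw [← hab]; ring⟩ hk
    · intro q _ _
      exact Real.log_natCast_nonneg q
  linarith

lemma d1 (l i k : ℕ) : ∑ q ∈ k.primeFactors, fA l i q ≤ dv (10 ^ (i * tt l)) (fA l i) k := by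
  classical
  unfold dv
  rw [← Finset.sum_filter_ne_zero]
  apply Finset.sum_le_sum_of_subset_of_nonneg
  · intro q hq
    rw [Finset.mem_filter] at hq
    rw [Finset.mem_filter, Finset.mem_Icc]
    exact ⟨⟨(Nat.prime_of_mem_primeFactors hq.1).pos, fA_ne l i q hq.2⟩,
      Nat.dvd_of_mem_primeFactors hq.1⟩
  · intro q _ _
    exact fA_nonneg l i q

lemma d2 (l i j k : ℕ) :
    ∑ q ∈ k.primeFactors, ∑ q' ∈ k.primeFactors.erase q, fA l i q * fA l j q' ≤
      dv (10 ^ ((i + j) * tt l)) (⇑(fA l i * fA l j)) k := by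
  classical
  unfold dv
  set P := k.primeFactors with hP
  set S := (Icc 1 (10 ^ ((i + j) * tt l))).filter (fun m => m ∣ k) with hS
  set g : ℕ × ℕ → ℝ := fun x => fA l i x.1 * fA l j x.2 with hg
  have hg0 : ∀ x, 0 ≤ g x := fun x => mul_nonneg (fA_nonneg _ _ _) (fA_nonneg _ _ _)
  set T := ((P ×ˢ P).filter (fun x => x.1 ≠ x.2)).filter (fun x => g x ≠ 0) with hT
  have e1 : ∑ q ∈ P, ∑ q' ∈ P.erase q, fA l i q * fA l j q' = ∑ x ∈ T, g x := by
    rw [hT, Finset.sum_filter_ne_zero, Finset.sum_filter, Finset.sum_product]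
    apply Finset.sum_congr rfl
    intro q _
    rw [← Finset.filter_ne, Finset.sum_filter]
  have hmap : ∀ x ∈ T, x.1 * x.2 ∈ S := by
    intro x hx
    rw [hT, Finset.mem_filter, Finset.mem_filter, Finset.mem_product] at hx
    obtain ⟨⟨⟨h1, h2⟩, hne⟩, hz⟩ := hx
    have p1 := Nat.prime_of_mem_primeFactors h1
    have p2 := Nat.prime_of_mem_primeFactors h2
    rw [hS, Finset.mem_filter, Finset.mem_Icc]
    refine ⟨⟨Nat.mul_pos p1.pos p2.pos, ?_⟩, ?_⟩
    · rw [add_mul, pow_add]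
      exact Nat.mul_le_mul (fA_ne l i _ (left_ne_zero_of_mul hz))
        (fA_ne l j _ (right_ne_zero_of_mul hz))
    · exact Nat.Coprime.mul_dvd_of_dvd_of_dvd ((Nat.coprime_primes p1 p2).mpr hne)
        (Nat.dvd_of_mem_primeFactors h1) (Nat.dvd_of_mem_primeFactors h2)
  rw [e1, ← Finset.sum_fiberwise_of_maps_to hmap]
  apply Finset.sum_le_sum
  intro m hm
  rw [ArithmeticFunction.mul_apply]
  apply Finset.sum_le_sum_of_subset_of_nonneg
  · intro x hx
    rw [Finset.mem_filter] at hx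
    rw [Nat.mem_divisorsAntidiagonal]
    rw [hS, Finset.mem_filter, Finset.mem_Icc] at hm
    exact ⟨hx.2, by omega⟩
  · intro x _ _
    exact hg0 x

lemma ten : (1 : ℝ) ≤ log 10 := by
  rw [Real.le_log_iff_exp_le (by norm_num)]
  have := Real.exp_one_lt_d9
  linarith

lemma logl (l : ℕ) (hl : 1 ≤ l) : log (l : ℝ) ≤ l / 10000 + 4 * log 10 := by
  have hl' : (0 : ℝ) < l := by exact_mod_cast hl
  have h1 : log ((l : ℝ) / 10 ^ 4) ≤ l / 10 ^ 4 - 1 := Real.log_le_sub_one_of_pos (by positivity)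
  rw [Real.log_div hl'.ne' (by norm_num), Real.log_pow] at h1
  push_cast at h1
  linarith

end Mj

theorem mj : MjStmt := by
  classical
  unfold MjStmt
  filter_upwards [eventually_ge_atTop 20000] with l hl k hk1 hk2 hb hs
  have hk0 : k ≠ 0 := by
    have : 0 < 10 ^ (l - 1) := by positivity
    omega
  have hl1 : 1 ≤ l := by omega
  have hlR : (20000 : ℝ) ≤ l := by exact_mod_cast hl
  have h10 := Mj.ten
  set P := k.primeFactors with hP
  have hT : 399 / 400 * (l * log 10) + 20 * log 10 ≤ ∑ q ∈ P, log (q : ℝ) := by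
    have h1 := Mj.sumlog l k hk0 hb
    have h2 : ((l : ℝ) - 1) * log 10 ≤ log k := by
      have h3 : ((10 : ℝ) ^ (l - 1)) ≤ k := by exact_mod_cast hk1
      have h4 := Real.log_le_log (by positivity) h3
      rw [Real.log_pow, Nat.cast_sub hl1] at h4
      exact_mod_cast h4
    have h3 := Mj.logl l hl1
    nlinarith
  have hbox : ∀ q ∈ P, log (q : ℝ) ≤ ∑ i ∈ Icc 1 20, fA l i q := fun q hq =>
    Mj.box l q (Nat.prime_of_mem_primeFactors hq)
      (hs q (Nat.prime_of_mem_primeFactors hq) (Nat.dvd_of_mem_primeFactors hq))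
  have hLam : 0 < (l : ℝ) * log 10 := by positivity
  have hsmall : ∀ i ∈ Icc 1 18, ∑ q ∈ P, fA l i q ≤
      ∑ j ∈ Icc 1 20, 400 / ((399 - 5 * i) * (l * log 10)) *
        dv (10 ^ ((i + j) * tt l)) (⇑(fA l i * fA l j)) k := by
    intro i hi
    rw [Finset.mem_Icc] at hi
    have hi18 : (i : ℝ) ≤ 18 := by exact_mod_cast hi.2
    have hi0 : (0 : ℝ) ≤ i := by positivity
    have hden : 0 < (399 - 5 * (i : ℝ)) * (l * log 10) := mul_pos (by linarith) hLam
    have hc : 0 ≤ 400 / ((399 - 5 * (i : ℝ)) * (l * log 10)) := by positivity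
    have hq1 : ∀ q ∈ P, fA l i q ≤ 400 / ((399 - 5 * i) * (l * log 10)) *
        ∑ j ∈ Icc 1 20, ∑ q' ∈ P.erase q, fA l i q * fA l j q' := by
      intro q hq
      have e : ∑ j ∈ Icc 1 20, ∑ q' ∈ P.erase q, fA l i q * fA l j q' =
          fA l i q * ∑ q' ∈ P.erase q, ∑ j ∈ Icc 1 20, fA l j q' := by
        rw [Finset.sum_comm, Finset.mul_sum]
        apply Finset.sum_congr rfl
        intro q' _
        rw [Finset.mul_sum]
      rw [e]
      by_cases hz : fA l i q = 0
      · rw [hz]; simp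
      have hqle := Mj.fA_ne l i q hz
      have hqpos := (Nat.prime_of_mem_primeFactors hq).pos
      have hlq : log (q : ℝ) ≤ (i : ℝ) / 80 * (l * log 10) + 20 * log 10 := by
        have h3 : (q : ℝ) ≤ (10 : ℝ) ^ (i * tt l) := by exact_mod_cast hqle
        have h4 := Real.log_le_log (by exact_mod_cast hqpos) h3
        rw [Real.log_pow] at h4
        have h5 : (tt l : ℝ) ≤ l / 80 + 1 := by
          unfold tt
          push_cast
          have := Nat.cast_div_le (α := ℝ) (m := l) (n := 80)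
          push_cast at this
          linarith
        push_cast at h4
        have h6 : (i : ℝ) * tt l ≤ i * (l / 80 + 1) := mul_le_mul_of_nonneg_left h5 hi0
        have h7 : (i : ℝ) * tt l * log 10 ≤ i * (l / 80 + 1) * log 10 :=
          mul_le_mul_of_nonneg_right h6 (by linarith)
        nlinarith
      have hrest : (399 - 5 * (i : ℝ)) / 400 * (l * log 10) ≤
          ∑ q' ∈ P.erase q, ∑ j ∈ Icc 1 20, fA l j q' := by
        have h1 : ∑ q' ∈ P.erase q, log (q' : ℝ) ≤
            ∑ q' ∈ P.erase q, ∑ j ∈ Icc 1 20, fA l j q' :=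
          Finset.sum_le_sum fun q' hq' => hbox q' (Finset.mem_of_mem_erase hq')
        have h2 := Finset.add_sum_erase P (fun q' : ℕ => log (q' : ℝ)) hq
        linarith
      have h0 := Mj.fA_nonneg l i q
      have h1 : fA l i q * ((399 - 5 * (i : ℝ)) / 400 * (l * log 10)) ≤
          fA l i q * ∑ q' ∈ P.erase q, ∑ j ∈ Icc 1 20, fA l j q' :=
        mul_le_mul_of_nonneg_left hrest h0
      have h2 := mul_le_mul_of_nonneg_left h1 hc
      have h3 : 400 / ((399 - 5 * (i : ℝ)) * (l * log 10)) *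
          (fA l i q * ((399 - 5 * (i : ℝ)) / 400 * (l * log 10))) = fA l i q := by
        have h4 : (399 - 5 * (i : ℝ)) ≠ 0 := by linarith
        have h5 : (l : ℝ) * log 10 ≠ 0 := hLam.ne'
        generalize (l : ℝ) * log 10 = Λ at h5 ⊢
        field_simp
      linarith
    calc ∑ q ∈ P, fA l i q ≤ ∑ q ∈ P, 400 / ((399 - 5 * i) * (l * log 10)) *
          ∑ j ∈ Icc 1 20, ∑ q' ∈ P.erase q, fA l i q * fA l j q' := Finset.sum_le_sum hq1
      _ = ∑ j ∈ Icc 1 20, 400 / ((399 - 5 * i) * (l * log 10)) *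
          ∑ q ∈ P, ∑ q' ∈ P.erase q, fA l i q * fA l j q' := by
        rw [← Finset.mul_sum, ← Finset.mul_sum, Finset.sum_comm]
      _ ≤ _ := Finset.sum_le_sum fun j _ => mul_le_mul_of_nonneg_left (Mj.d2 l i j k) hc
  have hsplit : ∑ i ∈ Icc 1 20, ∑ q ∈ P, fA l i q =
      ∑ i ∈ Icc 19 20, ∑ q ∈ P, fA l i q + ∑ i ∈ Icc 1 18, ∑ q ∈ P, fA l i q := by
    rw [← Finset.sum_union (by decide),
      show (Icc 19 20 ∪ Icc 1 18 : Finset ℕ) = Icc 1 20 by decide]
  have h1 : ∑ q ∈ P, log (q : ℝ) ≤ ∑ i ∈ Icc 1 20, ∑ q ∈ P, fA l i q := by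
    rw [Finset.sum_comm]
    exact Finset.sum_le_sum hbox
  have h2 : ∑ i ∈ Icc 19 20, ∑ q ∈ P, fA l i q ≤
      ∑ i ∈ Icc 19 20, dv (10 ^ (i * tt l)) (fA l i) k :=
    Finset.sum_le_sum fun i _ => Mj.d1 l i k
  have h3 := Finset.sum_le_sum hsmall
  linarith

end Pool.Agent.Emirp.LP
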