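import Pool.Agent.MP_e620c0_nt.lp.Spec

/-! Mass of the boxes of primes, and the number of primes with `l` digits. -/

set_option autoImplicit false

namespace Pool.Agent.Emirp.LP

open Finset Filter Real
open scoped ArithmeticFunction.vonMangoldt

namespace Ms

theorem fA_apply (l i q : ℕ) : fA l i q =
    if q.Prime ∧ 10 ^ ((i - 1) * tt l) < q ∧ q ≤ 10 ^ (i * tt l) then log q else 0 := rfl

theorem fA_nonneg (l i q : ℕ) : 0 ≤ fA l i q := by
  rw [fA_apply]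
  split_ifs
  · exact log_natCast_nonneg _
  · exact le_rfl

theorem ten0 : 0 ≤ log 10 := log_nonneg (by norm_num)

theorem ten1 : 1 ≤ log 10 := by
  rw [le_log_iff_exp_le (by norm_num)]
  linarith [exp_one_lt_d9]

theorem ten3 : log 10 ≤ 58 / 25 := by
  have h1 : log ((10 : ℝ) ^ 3) ≤ log ((2 : ℝ) ^ 10) := log_le_log (by norm_num) (by norm_num)
  rw [log_pow, log_pow] at h1
  have := log_two_lt_d9
  push_cast at h1
  linarith

theorem tt_le (l : ℕ) : (tt l : ℝ) ≤ l / 80 + 1 := by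
  have : ((l / 80 : ℕ) : ℝ) ≤ (l : ℝ) / (80 : ℕ) := Nat.cast_div_le
  unfold tt
  push_cast at this ⊢
  linarith

theorem fA_le {l i : ℕ} (hl : 200 ≤ l) (hi : i ≤ 20) (q : ℕ) : fA l i q ≤ l := by
  rw [fA_apply]
  split_ifs with h
  · have h1 : (q : ℝ) ≤ 10 ^ (i * tt l) := by exact_mod_cast h.2.2
    have h2 := log_le_log (by exact_mod_cast h.1.pos) h1
    rw [log_pow] at h2
    have h3 : (i : ℝ) ≤ 20 := by exact_mod_cast hi
    have h4 : (200 : ℝ) ≤ l := by exact_mod_cast hl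
    have h5 := tt_le l
    have h6 : ((i * tt l : ℕ) : ℝ) ≤ 20 * (l / 80 + 1) := by
      push_cast
      exact mul_le_mul h3 h5 (Nat.cast_nonneg _) (by norm_num)
    have h7 := mul_le_mul h6 ten3 ten0 (by positivity)
    linarith
  · exact Nat.cast_nonneg _

theorem fA_tau {l i : ℕ} (hl : 200 ≤ l) (hi : i ≤ 20) (q : ℕ) : fA l i q ≤ l * tau q := by
  rcases Nat.eq_zero_or_pos q with rfl | hq
  · simp [tau]
  · have : (1 : ℝ) ≤ tau q := by
      unfold tau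
      exact_mod_cast card_pos.mpr ⟨1, Nat.one_mem_divisors.mpr hq.ne'⟩
    exact (fA_le hl hi q).trans (le_mul_of_one_le_right (Nat.cast_nonneg _) this)

theorem mul_tau {f g : ArithmeticFunction ℝ} {W : ℝ} (hW : 0 ≤ W) (f0 : ∀ d, 0 ≤ f d)
    (g0 : ∀ d, 0 ≤ g d) (hf : ∀ d, f d ≤ W) (hg : ∀ d, g d ≤ W) (n : ℕ) :
    0 ≤ (f * g) n ∧ (f * g) n ≤ W ^ 2 * tau n := by
  rw [ArithmeticFunction.mul_apply, Nat.sum_divisorsAntidiagonal (fun d e => f d * g e)]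
  refine ⟨sum_nonneg fun d _ => mul_nonneg (f0 _) (g0 _), ?_⟩
  refine (sum_le_sum fun d _ => mul_le_mul (hf d) (hg (n / d)) (g0 _) hW).trans ?_
  rw [sum_const, nsmul_eq_mul, tau, mul_comm, sq]

theorem conv {f g : ArithmeticFunction ℝ} (f0 : ∀ d, 0 ≤ f d) (g0 : ∀ d, 0 ≤ g d) (N : ℕ) :
    ∑ m ∈ Icc 1 N, (f * g) m / m ≤ (∑ x ∈ Icc 1 N, f x / x) * ∑ y ∈ Icc 1 N, g y / y := by
  have e : ∀ m ∈ Icc 1 N, (f * g) m / m =
      ∑ p ∈ (Icc 1 N ×ˢ Icc 1 N).filter (fun p : ℕ × ℕ => p.1 * p.2 = m), f p.1 / p.1 * (g p.2 / p.2) := by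
    intro m hm
    obtain ⟨h1, h2⟩ := mem_Icc.mp hm
    rw [ArithmeticFunction.mul_apply, sum_div]
    refine sum_congr ?_ fun p hp => ?_
    · ext p
      simp only [Nat.mem_divisorsAntidiagonal, mem_filter, mem_product, mem_Icc]
      constructor
      · rintro ⟨h, -⟩
        have a : p.1 ∣ m := ⟨_, h.symm⟩
        have b : p.2 ∣ m := ⟨p.1, by rw [← h, mul_comm]⟩
        exact ⟨⟨⟨Nat.pos_of_dvd_of_pos a h1, (Nat.le_of_dvd h1 a).trans h2⟩,
          Nat.pos_of_dvd_of_pos b h1, (Nat.le_of_dvd h1 b).trans h2⟩, h⟩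
      · exact fun h => ⟨h.2, by omega⟩
    · rw [← (mem_filter.mp hp).2, div_mul_div_comm, Nat.cast_mul]
  rw [sum_congr rfl e, sum_mul_sum, ← sum_product', sum_fiberwise_eq_sum_filter]
  exact sum_le_sum_of_subset_of_nonneg (filter_subset _ _) fun p _ _ =>
    mul_nonneg (div_nonneg (f0 _) (Nat.cast_nonneg _)) (div_nonneg (g0 _) (Nat.cast_nonneg _))

theorem box (l i N : ℕ) (hi : 1 ≤ i) : ∑ m ∈ Icc 1 N, fA l i m / m ≤
    ∑ p ∈ (Icc 1 (10 ^ (i * tt l))).filter Nat.Prime, log p / (p : ℝ) -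
      ∑ p ∈ (Icc 1 (10 ^ ((i - 1) * tt l))).filter Nat.Prime, log p / (p : ℝ) := by
  have hle : 10 ^ ((i - 1) * tt l) ≤ 10 ^ (i * tt l) :=
    Nat.pow_le_pow_right (by norm_num) (Nat.mul_le_mul_right _ (Nat.sub_le _ _))
  rw [← sum_sdiff_eq_sub (filter_subset_filter _ (Icc_subset_Icc_right hle))]
  have e : ∑ m ∈ Icc 1 N, fA l i m / m = ∑ m ∈ (Icc 1 N).filter
      (fun q => q.Prime ∧ 10 ^ ((i - 1) * tt l) < q ∧ q ≤ 10 ^ (i * tt l)), log m / (m : ℝ) := by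
    rw [sum_filter]
    refine sum_congr rfl fun m _ => ?_
    rw [fA_apply]
    split_ifs <;> simp
  rw [e]
  refine sum_le_sum_of_subset_of_nonneg (fun q hq => ?_) fun p _ _ =>
    div_nonneg (log_natCast_nonneg _) (Nat.cast_nonneg _)
  simp only [mem_filter, Finset.mem_sdiff, mem_Icc] at hq ⊢
  exact ⟨⟨⟨hq.2.1.pos, hq.2.2.2⟩, hq.2.1⟩, fun h => absurd h.1.2 (not_le.mpr hq.2.2.1)⟩

theorem flo (k : ℕ) : ⌊(10 : ℝ) ^ k⌋₊ = 10 ^ k := by
  exact_mod_cast Nat.floor_natCast (R := ℝ) (10 ^ k)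

theorem mass : ∀ᶠ l : ℕ in atTop, ∀ i N : ℕ, 1 ≤ i →
    ∑ m ∈ Icc 1 N, fA l i m / m ≤ 1001 / 80000 * (l * log 10) := by
  obtain ⟨C, hC⟩ := mert
  filter_upwards [tendsto_natCast_atTop_atTop.eventually_ge_atTop (80000 * (1 + 2 * |C|) : ℝ)]
    with l hl i N hi
  have h1 := (abs_le.mp (hC (10 ^ (i * tt l)) (one_le_pow₀ (by norm_num)))).2
  have h2 := (abs_le.mp (hC (10 ^ ((i - 1) * tt l)) (one_le_pow₀ (by norm_num)))).1
  rw [flo, log_pow] at h1 h2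
  have h3 : ((i * tt l : ℕ) : ℝ) = (((i - 1) * tt l : ℕ) : ℝ) + tt l := by
    obtain ⟨k, rfl⟩ : ∃ k, i = k + 1 := ⟨i - 1, by omega⟩
    simp [add_mul]
  rw [h3, add_mul] at h1
  have h4 := mul_le_mul_of_nonneg_right (tt_le l) ten0
  have h5 := mul_le_mul_of_nonneg_right hl ten0
  have h6 := mul_le_mul_of_nonneg_left ten1 (abs_nonneg C)
  have h7 := le_abs_self C
  have h8 := box l i N hi
  nlinarith

theorem root {l : ℕ} (hl : 26 ≤ l) : 6000 * (l : ℝ) ≤ √(10 ^ l) := by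
  refine le_sqrt_of_sq_le ?_
  have h1 : l ≤ 2 ^ l := Nat.lt_two_pow_self.le
  have h2 : 2 ^ 26 ≤ 2 ^ l := Nat.pow_le_pow_right (by norm_num) hl
  have h3 : 2 ^ l * 2 ^ l * 2 ^ l ≤ 10 ^ l := by
    rw [← mul_pow, ← mul_pow]
    exact Nat.pow_le_pow_left (by norm_num) _
  have h4 : (6000 * l) ^ 2 ≤ 10 ^ l := by
    refine le_trans ?_ ((Nat.mul_le_mul (Nat.mul_le_mul h1 h1) h2).trans h3)
    nlinarith [Nat.zero_le (l * l)]
  exact_mod_cast h4

end Ms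

open Ms

theorem ms : MsStmt := by
  filter_upwards [Ms.mass, eventually_ge_atTop 200] with l hm hl i j N i1 i2 j1 j2
  refine ⟨fun m => ⟨fA_nonneg _ _ _, fA_tau hl i2 m⟩, mul_tau (Nat.cast_nonneg _) (fA_nonneg l i)
    (fA_nonneg l j) (fA_le hl i2) (fA_le hl j2), hm i N i1, ?_⟩
  refine (conv (fA_nonneg l i) (fA_nonneg l j) N).trans ?_
  rw [sq]
  exact mul_le_mul (hm i N i1) (hm j N j1)
    (sum_nonneg fun y _ => div_nonneg (fA_nonneg _ _ _) (Nat.cast_nonneg _))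
    (mul_nonneg (by norm_num) (mul_nonneg (Nat.cast_nonneg _) ten0))

theorem pis : PiStmt := by
  obtain ⟨x₀, hx⟩ := pnt_int (1 / 1000) (by norm_num)
  have ht : Tendsto (fun l : ℕ => (10 : ℝ) ^ (l - 1)) atTop atTop :=
    (tendsto_pow_atTop_atTop_of_one_lt (by norm_num)).comp (tendsto_sub_atTop_nat 1)
  filter_upwards [ht.eventually_ge_atTop x₀, eventually_ge_atTop 26] with l h0 hl
  have e : 10 ^ l = 10 * 10 ^ (l - 1) := by
    rw [← pow_succ']; congr 1; omega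
  have e' : (10 : ℝ) ^ l = 10 * 10 ^ (l - 1) := by exact_mod_cast e
  have h1 := (abs_le.mp (hx 1 (10 ^ (l - 1)) (10 ^ l) le_rfl (by omega) e.le (by simpa using h0))).1
  have h2 := Chebyshev.psi_sub_theta_le (x := (10 : ℝ) ^ l) (one_le_pow₀ (by norm_num))
  rw [Chebyshev.psi_sub_theta_eq_sum_not_prime, Real.log_pow, flo] at h2
  rw [← sum_filter_add_sum_filter_not _ Nat.Prime] at h1
  have h3 : ∑ n ∈ ((range (10 ^ l)).filter fun n => 10 ^ (l - 1) ≤ 1 * n ∧ 1 * n < 10 ^ l).filter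
      (fun n => ¬ n.Prime), Λ n ≤ ∑ k ∈ (Ioc 0 (10 ^ l)).filter (fun k => ¬ k.Prime), Λ k := by
    refine sum_le_sum_of_subset_of_nonneg (fun k hk => ?_) fun k _ _ => ArithmeticFunction.vonMangoldt_nonneg
    simp only [mem_filter, mem_range, mem_Ioc, one_mul] at hk ⊢
    exact ⟨⟨lt_of_lt_of_le (by positivity) hk.1.2.1, hk.1.1.le⟩, hk.2⟩
  have h4 : ∑ n ∈ ((range (10 ^ l)).filter fun n => 10 ^ (l - 1) ≤ 1 * n ∧ 1 * n < 10 ^ l).filter
      Nat.Prime, Λ n ≤ ((PL l).card : ℝ) * (l * log 10) := by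
    have : ((range (10 ^ l)).filter fun n => 10 ^ (l - 1) ≤ 1 * n ∧ 1 * n < 10 ^ l).filter
        Nat.Prime = PL l := by
      ext k
      simp only [PL, mem_filter, mem_range, mem_Ico, one_mul]
      tauto
    rw [this, ← nsmul_eq_mul]
    refine sum_le_card_nsmul _ _ _ fun k hk => ArithmeticFunction.vonMangoldt_le_log.trans ?_
    obtain ⟨hk, hp⟩ := mem_filter.mp hk
    rw [← Real.log_pow]
    exact log_le_log (by exact_mod_cast hp.pos) (by exact_mod_cast (mem_Ico.mp hk).2.le)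
  have h5 := root hl
  have h6 : √((10 : ℝ) ^ l) * √(10 ^ l) = 10 ^ l := mul_self_sqrt (by positivity)
  have h7 : (l : ℝ) * log 10 ≤ l * (58 / 25) := mul_le_mul_of_nonneg_left ten3 (Nat.cast_nonneg _)
  have h8 : (l : ℝ) * log 10 ≤ √(10 ^ l) / 2500 := by
    have : (0 : ℝ) ≤ l := Nat.cast_nonneg _
    linarith
  have h9 := mul_le_mul_of_nonneg_left h8 (sqrt_nonneg ((10 : ℝ) ^ l))
  have h10 : (0 : ℝ) < 10 ^ (l - 1) := by positivity
  push_cast at h1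
  simp only [div_one] at h1
  nlinarith

end Pool.Agent.Emirp.LP
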