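import Pool.Agent.MP_e620c0_nt.lp.Spec

/-! Few primes have a smooth reversal; the final count. -/

set_option autoImplicit false

namespace Pool.Agent.Emirp.LP

open Finset Filter Real

namespace Sm

theorem mem_PL {l p : ℕ} (h : p ∈ PL l) : 10 ^ (l - 1) ≤ p ∧ p < 10 ^ l ∧ p.Prime := by
  obtain ⟨h1, h2⟩ := mem_filter.1 h
  exact ⟨(mem_Ico.1 h1).1, (mem_Ico.1 h1).2, h2⟩

theorem rv_ge {l p : ℕ} (hl : 1 ≤ l) (hp : p.Prime) : 10 ^ (l - 1) ≤ rv l p := by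
  by_contra h
  have h1 := MAIN.dg_top hl (rv_lt l p)
  rw [Nat.div_eq_of_lt (not_le.1 h), dg_rv (by omega), Nat.sub_self] at h1
  simp only [dg, pow_zero, Nat.div_one] at h1
  have h2 : 2 ∣ p := by omega
  have h5 : 5 ∣ p := by omega
  have := (Nat.prime_dvd_prime_iff_eq (by norm_num) hp).1 h2
  have := (Nat.prime_dvd_prime_iff_eq (by norm_num) hp).1 h5
  omega

theorem dv_nonneg {M : ℕ} {α : ℕ → ℝ} (h : ∀ m, 0 ≤ α m) (k : ℕ) : 0 ≤ dv M α k :=
  sum_nonneg fun m _ => h m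

/-- count of large square divisors -/
noncomputable def ex (l k : ℕ) : ℝ :=
  ∑ q ∈ Ioc (l ^ 2) (10 ^ l), if k ≠ 0 ∧ q ^ 2 ∣ k then (1 : ℝ) else 0

theorem ex_nonneg (l k : ℕ) : 0 ≤ ex l k := sum_nonneg fun _ _ => by split_ifs <;> norm_num

theorem one_le_ex {l k b : ℕ} (h0 : k ≠ 0) (hk : k < 10 ^ l) (hb : l ^ 2 < b) (hd : b ^ 2 ∣ k) :
    1 ≤ ex l k := by
  have h1 : b ≤ k := Nat.le_of_dvd (by omega) ((dvd_pow_self b two_ne_zero).trans hd)
  have h2 := single_le_sum (f := fun q => if k ≠ 0 ∧ q ^ 2 ∣ k then (1 : ℝ) else 0)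
    (fun q _ => by split_ifs <;> norm_num) (mem_Ioc.2 ⟨hb, h1.trans hk.le⟩)
  rwa [if_pos ⟨h0, hd⟩] at h2

theorem sum_ex {l : ℕ} (hl : 1 ≤ l) : ∑ p ∈ PL l, ex l (rv l p) ≤ 10 ^ l / (l : ℝ) ^ 2 := by
  have h1 : l ^ 2 ≤ 10 ^ l := by
    have h2 : l ≤ 2 ^ l := Nat.lt_two_pow_self.le
    calc l ^ 2 ≤ (2 ^ l) ^ 2 := Nat.pow_le_pow_left h2 2
      _ = 4 ^ l := by rw [← pow_mul, mul_comm, pow_mul]; norm_num
      _ ≤ _ := Nat.pow_le_pow_left (by norm_num) l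
  have h2 := MAIN.sum_nsf (X := 10 ^ l) (z := l ^ 2) (by positivity) h1
  push_cast at h2
  refine le_trans ?_ h2
  refine (sum_le_sum_of_subset_of_nonneg (t := range (10 ^ l)) (fun p hp => mem_range.2 (mem_PL hp).2.1)
    fun p _ _ => ex_nonneg _ _).trans (le_of_eq ?_)
  exact sum_rv l (ex l)

end Sm

open Sm in
theorem sm (h1 : LevStmt) (h2 : MjStmt) (h3 : MsStmt) (h4 : NumStmt) : SmStmt := by
  classical
  filter_upwards [h1, h2, h3, eventually_ge_atTop 4000] with l h1 h2 h3 hl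
  have hl' : (4000 : ℝ) ≤ l := by exact_mod_cast hl
  have hg1 := Good.log_ten_ge
  have hg2 := Good.log_ten_le
  set L : ℝ := l * log 10 with hL
  set X : ℝ := 10 ^ l with hX
  have hX0 : 0 < X := by positivity
  have hL1 : 4000 ≤ L := by nlinarith
  have hL2 : L ≤ 3 * l := by nlinarith
  have hL0 : 0 < L := by linarith
  set Mj : ℕ → ℝ := fun k => ∑ i ∈ Icc 19 20, dv (10 ^ (i * tt l)) (fA l i) k +
    ∑ i ∈ Icc 1 18, ∑ j ∈ Icc 1 20, 400 / ((399 - 5 * i) * L) *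
      dv (10 ^ ((i + j) * tt l)) (⇑(fA l i * fA l j)) k with hMj
  have hc : ∀ i ∈ Icc 1 18, 0 ≤ 400 / ((399 - 5 * (i : ℕ) : ℝ) * L) ∧
      400 / ((399 - 5 * (i : ℕ) : ℝ) * L) ≤ 1 := fun i hi => by
    have : (i : ℝ) ≤ 18 := by exact_mod_cast (mem_Icc.1 hi).2
    have h5 : (309 : ℝ) ≤ 399 - 5 * i := by linarith
    refine ⟨by positivity, ?_⟩
    rw [div_le_one (by positivity)]
    nlinarith
  have hM0 : ∀ k, 0 ≤ Mj k := fun k => by
    refine add_nonneg (sum_nonneg fun i hi => dv_nonneg (fun m => ?_) k)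
      (sum_nonneg fun i hi => sum_nonneg fun j hj => mul_nonneg (hc i hi).1 (dv_nonneg (fun m => ?_) k))
    · have := mem_Icc.1 hi
      exact ((h3 i 1 1 (by omega) (by omega) le_rfl (by norm_num)).1 m).1
    · have := mem_Icc.1 hi
      have := mem_Icc.1 hj
      exact ((h3 i j 1 (by omega) (by omega) (by omega) (by omega)).2.1 m).1
  have pt : ∀ p ∈ PL l, 399 / 400 * L *
      (if ∀ q : ℕ, q.Prime → q ∣ rv l p → q ^ 4 ≤ 10 ^ l then (1 : ℝ) else 0) ≤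
      Mj (rv l p) + L * ex l (rv l p) := fun p hp => by
    have a1 := hM0 (rv l p)
    have a2 := mul_nonneg hL0.le (ex_nonneg l (rv l p))
    have a3 := rv_ge (l := l) (by omega) (mem_PL hp).2.2
    have a4 : rv l p ≠ 0 := by
      have : 0 < 10 ^ (l - 1) := by positivity
      omega
    split_ifs with hs
    · by_cases he : ∀ b : ℕ, l ^ 2 < b → ¬ b ^ 2 ∣ rv l p
      · have := h2 (rv l p) a3 (rv_lt l p) he hs
        linarith
      · push Not at he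
        obtain ⟨b, hb, hd⟩ := he
        have := mul_le_mul_of_nonneg_left (one_le_ex a4 (rv_lt l p) hb hd) hL0.le
        linarith
    · linarith
  have s1 := sum_le_sum pt
  rw [← mul_sum, sum_boole, sum_add_distrib, ← mul_sum] at s1
  have s2 := mul_le_mul_of_nonneg_left (sum_ex (l := l) (by omega)) hL0.le
  set R : ℝ := X / (l : ℝ) ^ 5 with hR
  have hR0 : 0 ≤ R := by positivity
  have b1 : ∀ i ∈ Icc 19 20, ∑ p ∈ PL l, dv (10 ^ (i * tt l)) (fA l i) (rv l p) ≤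
      X * (1624 / 10 / (40 - (i : ℕ)) * (1001 / 80000)) + 4 * (l : ℝ) ^ 2 * R := fun i hi => by
    have := mem_Icc.1 hi
    obtain ⟨c1, -, c3, -⟩ := h3 i 1 (10 ^ (i * tt l)) (by omega) (by omega) le_rfl (by norm_num)
    refine (h1 i (fA l i) l _ (by omega) (by positivity) c1 c3).trans (add_le_add (le_of_eq ?_) ?_)
    · field_simp
    · have : (l : ℝ) ≤ (l : ℝ) ^ 2 := by nlinarith
      gcongr
  have b2 : ∀ i ∈ Icc 1 18, ∀ j ∈ Icc 1 20, ∑ p ∈ PL l, 400 / ((399 - 5 * (i : ℕ)) * L) *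
      dv (10 ^ ((i + j) * tt l)) (⇑(fA l i * fA l j)) (rv l p) ≤
      X * (400 / (399 - 5 * (i : ℕ)) * (1624 / 10 / (40 - ((i + j : ℕ) : ℝ)) * (1001 / 80000) ^ 2)) +
        4 * (l : ℝ) ^ 2 * R := fun i hi j hj => by
    have := mem_Icc.1 hi
    have := mem_Icc.1 hj
    obtain ⟨-, c2, -, c4⟩ := h3 i j (10 ^ ((i + j) * tt l)) (by omega) (by omega) (by omega) (by omega)
    rw [← mul_sum]
    refine (mul_le_mul_of_nonneg_left (h1 (i + j) _ ((l : ℝ) ^ 2) _ (by omega) (by positivity) c2 c4)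
      (hc i hi).1).trans ?_
    rw [mul_add]
    refine add_le_add (le_of_eq ?_) (mul_le_of_le_one_left (by positivity) (hc i hi).2)
    have : (i : ℝ) ≤ 18 := by exact_mod_cast (mem_Icc.1 hi).2
    have h5 : (399 - 5 * i : ℝ) ≠ 0 := by linarith
    generalize (1624 / 10 / (40 - ((i + j : ℕ) : ℝ)) : ℝ) = u
    field_simp
  have s3 : ∑ p ∈ PL l, Mj (rv l p) ≤ X * (886 / 1000) + 362 * (4 * (l : ℝ) ^ 2 * R) := by
    simp only [hMj]
    rw [sum_add_distrib, sum_comm, sum_comm (s := PL l)]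
    have c1 := sum_le_sum b1
    have c2 : ∑ i ∈ Icc 1 18, ∑ p ∈ PL l, ∑ j ∈ Icc 1 20, 400 / ((399 - 5 * (i : ℕ)) * L) *
        dv (10 ^ ((i + j) * tt l)) (⇑(fA l i * fA l j)) (rv l p) ≤ ∑ i ∈ Icc (1 : ℕ) 18,
        ∑ j ∈ Icc (1 : ℕ) 20, (X * (400 / (399 - 5 * (i : ℕ)) *
          (1624 / 10 / (40 - ((i + j : ℕ) : ℝ)) * (1001 / 80000) ^ 2)) + 4 * (l : ℝ) ^ 2 * R) :=
      sum_le_sum fun i hi => by
        rw [sum_comm]
        exact sum_le_sum (b2 i hi)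
    simp only [sum_add_distrib, ← mul_sum, sum_const, Nat.card_Icc, nsmul_eq_mul] at c1 c2
    have c3 := mul_le_mul_of_nonneg_left h4 hX0.le
    rw [mul_add] at c3
    simp only [← mul_sum] at c3 ⊢
    push_cast at c1 c2 c3 ⊢
    linarith
  have e1 : 362 * (4 * (l : ℝ) ^ 2 * R) ≤ X * (1 / 2000) := by
    rw [hR, show 362 * (4 * (l : ℝ) ^ 2 * (X / (l : ℝ) ^ 5)) = X * (1448 / (l : ℝ) ^ 3) by field_simp; norm_num]
    refine mul_le_mul_of_nonneg_left ?_ hX0.le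
    rw [div_le_div_iff₀ (by positivity) (by norm_num)]
    have : (4000 : ℝ) ^ 3 ≤ (l : ℝ) ^ 3 := by gcongr
    linarith
  have e2 : L * (X / (l : ℝ) ^ 2) ≤ X * (3 / 4000) := by
    rw [show L * (X / (l : ℝ) ^ 2) = X * (L / (l : ℝ) ^ 2) by ring]
    refine mul_le_mul_of_nonneg_left ?_ hX0.le
    rw [div_le_div_iff₀ (by positivity) (by norm_num)]
    nlinarith
  nlinarith

open Sm in
theorem mn (h1 : PiStmt) (h2 : SmStmt) : MnStmt := by
  classical
  refine ⟨1 / 500, by norm_num, ?_⟩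
  have h0 : ∀ᶠ l : ℕ in atTop, ((l : ℝ) ^ 1 / 2 ^ l) ≤ 1 / 30000 :=
    (tendsto_pow_const_div_const_pow_of_one_lt 1 (by norm_num : (1 : ℝ) < 2)).eventually_le_const
      (by norm_num)
  filter_upwards [h1, h2, h0, eventually_ge_atTop 1] with l h1 h2 h0 hl
  have hl' : (1 : ℝ) ≤ l := by exact_mod_cast hl
  have hg1 := Good.log_ten_ge
  have hg2 := Good.log_ten_le
  set G := (Ico (10 ^ (l - 1)) (10 ^ l)).filter (fun p : ℕ => p.Prime ∧ Naccb31f3.reverse10 p ≠ p ∧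
      ∃ q : ℕ, q.Prime ∧ q ∣ Naccb31f3.reverse10 p ∧ 10 ^ l < q ^ 4) with hG
  set S := (PL l).filter fun p => ∀ q : ℕ, q.Prime → q ∣ rv l p → q ^ 4 ≤ 10 ^ l with hS
  set P := (range (10 ^ l)).filter (fun k => rv l k = k) with hP
  have a1 : PL l ⊆ G ∪ S ∪ P := fun p hp => by
    obtain ⟨b1, b2, b3⟩ := mem_PL hp
    by_cases c1 : rv l p = p
    · exact mem_union_right _ (mem_filter.2 ⟨mem_range.2 b2, c1⟩)
    by_cases c2 : ∀ q : ℕ, q.Prime → q ∣ rv l p → q ^ 4 ≤ 10 ^ l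
    · exact mem_union_left _ (mem_union_right _ (mem_filter.2 ⟨hp, c2⟩))
    push Not at c2
    refine mem_union_left _ (mem_union_left _ (mem_filter.2 ⟨mem_Ico.2 ⟨b1, b2⟩, b3, ?_⟩))
    rw [MAIN.reverse_eq hl b1 b2]
    exact ⟨c1, c2⟩
  have a2 : ((PL l).card : ℝ) ≤ G.card + S.card + P.card := by
    exact_mod_cast (card_le_card a1).trans ((card_union_le _ _).trans
      (Nat.add_le_add_right (card_union_le _ _) _))
  have a3 : (P.card : ℝ) * 2 ^ l ≤ 10 * 10 ^ l := by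
    have b1 : P.card * 2 ^ l ≤ 10 * 10 ^ l := by
      refine (Nat.mul_le_mul_right _ (MAIN.card_pal l)).trans ?_
      have b2 : 2 ^ l ≤ 10 ^ ((l + 1) / 2) :=
        calc 2 ^ l ≤ 2 ^ (2 * ((l + 1) / 2)) := Nat.pow_le_pow_right (by norm_num) (by omega)
          _ = 4 ^ ((l + 1) / 2) := by rw [pow_mul]; norm_num
          _ ≤ _ := Nat.pow_le_pow_left (by norm_num) _
      refine (Nat.mul_le_mul_left _ b2).trans ?_
      rw [← pow_add, ← pow_succ']
      exact Nat.pow_le_pow_right (by norm_num) (by omega)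
    exact_mod_cast b1
  set X : ℝ := 10 ^ l with hX
  have hX0 : 0 < X := by positivity
  have a4 : (P.card : ℝ) * l ≤ X / 3000 := by
    rw [pow_one, div_le_iff₀ (by positivity)] at h0
    have b1 := mul_le_mul_of_nonneg_left h0 (Nat.cast_nonneg (α := ℝ) P.card)
    linarith
  have a5 : (P.card : ℝ) * (l * log 10) ≤ X / 1000 := by
    have b1 := mul_le_mul_of_nonneg_left hg2 (show (0 : ℝ) ≤ P.card * l by positivity)
    nlinarith
  have a6 := mul_le_mul_of_nonneg_right a2 (show (0 : ℝ) ≤ l * log 10 by positivity)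
  have a7 : (G.card : ℝ) * (l * log 10) ≤ 58 / 25 * (G.card * l) := by
    have b1 := mul_le_mul_of_nonneg_left hg2 (show (0 : ℝ) ≤ G.card * l by positivity)
    linarith
  rw [div_le_iff₀ (by positivity)]
  rw [add_mul, add_mul] at a6
  linarith

end Pool.Agent.Emirp.LP
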