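import Pool.Agent.MP_e620c0_nt.Main
import Pool.Agent.MP_e620c0_nt.Sieve

/-! Primes whose reversal has a large prime factor: definitions and module statements. -/

set_option autoImplicit false

namespace Pool.Agent.Emirp.LP

open Finset Filter Real

noncomputable section

/-- reduced residues -/
def red (q : ℕ) : Finset ℕ := (range q).filter fun a => Nat.Coprime a q

/-- multiples of `m` with first digit 1, 3, 7 or 9 -/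
def wm (l m k : ℕ) : ℝ := if k / 10 ^ (l - 1) ∈ MAIN.DG ∧ m ∣ k then 1 else 0

/-- primes with `l` digits -/
def PL (l : ℕ) : Finset ℕ := (Ico (10 ^ (l - 1)) (10 ^ l)).filter Nat.Prime

/-- width of the boxes -/
def tt (l : ℕ) : ℕ := l / 80 + 1

/-- logarithm on the primes of box number `i` -/
def fA (l i : ℕ) : ArithmeticFunction ℝ :=
  ⟨fun q => if q.Prime ∧ 10 ^ ((i - 1) * tt l) < q ∧ q ≤ 10 ^ (i * tt l) then log q else 0, by simp⟩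

/-- sum of `α` over the divisors of `k` up to `M` -/
def dv (M : ℕ) (α : ℕ → ℝ) (k : ℕ) : ℝ := ∑ m ∈ (Icc 1 M).filter (fun m => m ∣ k), α m

/-! ### Level one half for the pair `k`, reversal of `k` -/

def LsStmt : Prop := ∀ (y Q v : ℕ) (x : ℕ → ℝ), 1 ≤ v → Q ^ 2 ≤ 10 ^ y →
  ∑ m ∈ Icc 1 Q, ∑ a ∈ red m, F y x (v * (a / m)) ^ 2 ≤ 82 * v

def FourStmt : Prop := ∀ l m q : ℕ, 1 ≤ l → 1 ≤ m → 1 ≤ q →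
  |disc (10 ^ l) (wm l m) (rv l) q| ≤ 4 * 10 ^ (l - 1) / (m * q) *
    ∑ a ∈ range m, ∑ b ∈ Ico 1 q, F (l - 1) (ph l (b / q)) (a / m)

def SplitStmt : Prop := ∀ (l k₁ w k₂ : ℕ) (α β : ℝ), k₁ + w + k₂ + 1 ≤ l →
  F (l - 1) (ph l β) α ≤
    F k₁ (ph l β) α * F w (sh k₁ (ph l β)) (10 ^ k₁ * α) * F k₂ (ph (l - 1) α) (10 * β)

def RedStmt : Prop := ∀ (D : ℕ) (s : Finset ℕ) (g : ℝ → ℝ), s ⊆ Icc 1 D →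
  (∀ q ∈ s, ∀ d, d ∣ q → d ∈ s) → (∀ u, 0 ≤ g u) →
  ∑ q ∈ s, tau q ^ 5 / q * ∑ a ∈ range q, g (a / q) ≤
    (1 + log D) ^ 32 * ∑ q ∈ s, tau q ^ 5 / q * ∑ a ∈ red q, g (a / q)

def MidStmt : Prop := ∀ A : ℕ, ∀ᶠ l : ℕ in atTop, ∀ s : ℕ, s + l / 2000 ≤ l →
  ∃ G : ℕ → ℕ → ℝ, (∀ q b, 0 ≤ G q b) ∧ ∀ q : ℕ, 1 < q → Nat.Coprime q 330 →
    (∀ b ∈ red q, ∀ t : ℝ, F (l / 2000) (sh s (ph l (b / q))) t ≤ G q b) ∧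
    ∑ b ∈ range q, G q b ^ 2 ≤ q * (1 / (l : ℝ) ^ A) ^ 2

def CsStmt : Prop := ∀ (l M D k₁ w k₂ : ℕ) (G : ℕ → ℕ → ℝ) (η : ℝ), k₁ + w + k₂ + 1 ≤ l →
  M ^ 2 ≤ 10 ^ k₁ → D ^ 2 ≤ 10 ^ k₂ → 0 ≤ η → (∀ q b, 0 ≤ G q b) →
  (∀ q : ℕ, 1 < q → Nat.Coprime q 330 →
    (∀ b ∈ red q, ∀ t : ℝ, F w (sh k₁ (ph l (b / q))) t ≤ G q b) ∧
    ∑ b ∈ range q, G q b ^ 2 ≤ q * η ^ 2) →
  ∑ m ∈ Icc 1 M, tau m ^ 5 / m * ∑ a ∈ red m,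
      ∑ q ∈ (Level.QQ D).filter (fun q => 1 < q), tau q ^ 5 / q * ∑ b ∈ red q,
        F (l - 1) (ph l (b / q)) (a / m)
    ≤ 260 * η * ((1 + log M) ^ 512 * (1 + log D) ^ 512)

def ToneStmt : Prop := ∀ A : ℕ, ∀ᶠ l : ℕ in atTop, ∀ M D k₁ k₂ : ℕ, M ^ 2 ≤ 10 ^ k₁ →
  D ^ 2 ≤ 10 ^ k₂ → k₁ + l / 2000 + k₂ + 1 ≤ l →
  ∑ m ∈ Icc 1 M, tau m ^ 5 * rem (10 ^ l) (wm l m) (rv l) D ≤ 10 ^ l / (l : ℝ) ^ A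

/-! ### Upper bound sieve on average over the modulus -/

def GgStmt : Prop := ∃ C : ℝ, ∀ ξ : ℕ, 1 ≤ ξ → 8 / 33 * log ξ - C ≤ GG ξ

def BtStmt : Prop := ∀ A : ℕ, ∀ᶠ l : ℕ in atTop, ∀ (M ξ k₁ k₂ : ℕ) (α : ℕ → ℝ) (W : ℝ), 1 ≤ ξ →
  (33 * M) ^ 2 ≤ 10 ^ k₁ → ξ ^ 4 ≤ 10 ^ k₂ → k₁ + l / 2000 + k₂ + 1 ≤ l → 0 ≤ W →
  (∀ m, 0 ≤ α m ∧ α m ≤ W * tau m) →
  ∑ p ∈ PL l, dv M α (rv l p) ≤
    (8 / 33 * 10 ^ l + 16 * M) * (∑ m ∈ Icc 1 M, α m / m) / GG ξ + 4 * W * (10 ^ l / (l : ℝ) ^ A)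

def LevStmt : Prop := ∀ᶠ l : ℕ in atTop, ∀ (s : ℕ) (α : ℕ → ℝ) (W μ : ℝ), s ≤ 38 → 0 ≤ W →
  (∀ m, 0 ≤ α m ∧ α m ≤ W * tau m) → ∑ m ∈ Icc 1 (10 ^ (s * tt l)), α m / m ≤ μ →
  ∑ p ∈ PL l, dv (10 ^ (s * tt l)) α (rv l p) ≤
    1624 / 10 / (40 - s) * (10 ^ l * μ / (l * log 10)) + 4 * W * (10 ^ l / (l : ℝ) ^ 5)

/-! ### The majorant for smooth numbers -/

def MjStmt : Prop := ∀ᶠ l : ℕ in atTop, ∀ k : ℕ, 10 ^ (l - 1) ≤ k → k < 10 ^ l →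
  (∀ b : ℕ, l ^ 2 < b → ¬ b ^ 2 ∣ k) → (∀ q : ℕ, q.Prime → q ∣ k → q ^ 4 ≤ 10 ^ l) →
  399 / 400 * (l * log 10) ≤ ∑ i ∈ Icc 19 20, dv (10 ^ (i * tt l)) (fA l i) k +
    ∑ i ∈ Icc 1 18, ∑ j ∈ Icc 1 20, 400 / ((399 - 5 * i) * (l * log 10)) *
      dv (10 ^ ((i + j) * tt l)) (⇑(fA l i * fA l j)) k

def MsStmt : Prop := ∀ᶠ l : ℕ in atTop, ∀ i j N : ℕ, 1 ≤ i → i ≤ 20 → 1 ≤ j → j ≤ 20 →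
  (∀ m, 0 ≤ fA l i m ∧ fA l i m ≤ l * tau m) ∧
  (∀ m, 0 ≤ (fA l i * fA l j) m ∧ (fA l i * fA l j) m ≤ (l : ℝ) ^ 2 * tau m) ∧
  ∑ m ∈ Icc 1 N, fA l i m / m ≤ 1001 / 80000 * (l * log 10) ∧
  ∑ m ∈ Icc 1 N, (fA l i * fA l j) m / m ≤ (1001 / 80000 * (l * log 10)) ^ 2

def PiStmt : Prop := ∀ᶠ l : ℕ in atTop, 899 / 1000 * 10 ^ l ≤ ((PL l).card : ℝ) * (l * log 10)

def NumStmt : Prop :=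
  ∑ i ∈ Icc (19 : ℕ) 20, (1624 / 10 / (40 - i) * (1001 / 80000) : ℝ) +
    ∑ i ∈ Icc (1 : ℕ) 18, ∑ j ∈ Icc (1 : ℕ) 20,
      400 / (399 - 5 * i) * (1624 / 10 / (40 - ((i + j : ℕ) : ℝ)) * (1001 / 80000) ^ 2) ≤ 886 / 1000

open Classical in
/-- few primes have a smooth reversal -/
def SmStmt : Prop := ∀ᶠ l : ℕ in atTop,
  (((PL l).filter fun p => ∀ q : ℕ, q.Prime → q ∣ rv l p → q ^ 4 ≤ 10 ^ l).card : ℝ) * (l * log 10)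
    ≤ 890 / 1000 * 10 ^ l

/-! ### The result -/

open Classical in
def MnStmt : Prop := ∃ c : ℝ, 0 < c ∧ ∀ᶠ L : ℕ in atTop,
  c * 10 ^ L / (L : ℝ) ≤
    (((Ico (10 ^ (L - 1)) (10 ^ L)).filter (fun p : ℕ => p.Prime ∧ Naccb31f3.reverse10 p ≠ p ∧
      ∃ q : ℕ, q.Prime ∧ q ∣ Naccb31f3.reverse10 p ∧ 10 ^ L < q ^ 4)).card : ℝ)

end

end Pool.Agent.Emirp.LP
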