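import Pool.Agent.MP_e620c0_nt.lp.Spec

/-! Type one estimate of level one half for the pair `k`, reversal of `k`. -/

set_option autoImplicit false

namespace Pool.Agent.Emirp.LP

open Finset Filter Real

noncomputable section

namespace Tone

/-- the Fourier factor with the zero frequency removed -/
def g2 (l : ℕ) (u v : ℝ) : ℝ := if v = 0 then 0 else F (l - 1) (ph l v) u

/-- sum over all residues -/
def g1 (l D : ℕ) (u : ℝ) : ℝ := ∑ q ∈ Level.QQ D, tau q ^ 5 / q * ∑ b ∈ range q, g2 l u (b / q)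

/-- sum over reduced residues -/
def g3 (l D : ℕ) (u : ℝ) : ℝ := ∑ q ∈ (Level.QQ D).filter (fun q => 1 < q),
  tau q ^ 5 / q * ∑ b ∈ red q, F (l - 1) (ph l (b / q)) u

theorem g2_nonneg (l : ℕ) (u v : ℝ) : 0 ≤ g2 l u v := by
  unfold g2
  split_ifs
  exacts [le_rfl, F_nonneg ..]

theorem g2_le (l : ℕ) (u v : ℝ) : g2 l u v ≤ F (l - 1) (ph l v) u := by
  unfold g2
  split_ifs
  exacts [F_nonneg .., le_rfl]

theorem g1_nonneg (l D : ℕ) (u : ℝ) : 0 ≤ g1 l D u :=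
  sum_nonneg fun q _ => mul_nonneg (Level.tq_nonneg 5 q) (sum_nonneg fun _ _ => g2_nonneg ..)

theorem ico_le (l q : ℕ) (u : ℝ) :
    ∑ b ∈ Ico 1 q, F (l - 1) (ph l (b / q)) u ≤ ∑ b ∈ range q, g2 l u (b / q) := by
  refine le_trans (le_of_eq (sum_congr rfl fun b hb => ?_))
    (sum_le_sum_of_subset_of_nonneg (s := Ico 1 q) (fun b hb => mem_range.2 (mem_Ico.1 hb).2)
      fun _ _ _ => g2_nonneg ..)
  have h := mem_Ico.1 hb
  have hb0 : (0 : ℝ) < b := by exact_mod_cast h.1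
  have hq0 : (0 : ℝ) < q := by exact_mod_cast (by omega : 0 < q)
  rw [g2, if_neg (div_pos hb0 hq0).ne']

theorem step1 (h1 : FourStmt) (l m D : ℕ) (hl : 1 ≤ l) (hm : 1 ≤ m) :
    tau m ^ 5 * rem (10 ^ l) (wm l m) (rv l) D ≤
      4 * 10 ^ (l - 1) * (tau m ^ 5 / m * ∑ a ∈ range m, g1 l D (a / m)) := by
  have hm0 : (0 : ℝ) < m := by exact_mod_cast hm
  have e : rem (10 ^ l) (wm l m) (rv l) D ≤
      4 * 10 ^ (l - 1) / m * ∑ a ∈ range m, g1 l D (a / m) := by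
    unfold g1
    rw [sum_comm, mul_sum]
    refine sum_le_sum fun q hq => ?_
    have hq1 : 1 ≤ q := (mem_Icc.1 (mem_filter.1 hq).1).1
    have hq0 : (0 : ℝ) < q := by exact_mod_cast hq1
    have ht := pow_nonneg (tau_nonneg q) 5
    have h2 := (h1 l m q hl hm hq1).trans (mul_le_mul_of_nonneg_left
      (sum_le_sum fun a _ => ico_le l q (a / m)) (by positivity))
    refine (mul_le_mul_of_nonneg_left h2 ht).trans (le_of_eq ?_)
    rw [← mul_sum]
    field_simp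
  refine (mul_le_mul_of_nonneg_left e (pow_nonneg (tau_nonneg m) 5)).trans (le_of_eq ?_)
  ring

theorem step3 (h2 : RedStmt) (l D : ℕ) (u : ℝ) : g1 l D u ≤ (1 + log D) ^ 32 * g3 l D u := by
  have h := h2 D (Level.QQ D) (g2 l u) (filter_subset _ _) (fun q hq d hd => by
    obtain ⟨h3, h4⟩ := mem_filter.1 hq
    have h5 := mem_Icc.1 h3
    exact mem_filter.2 ⟨mem_Icc.2 ⟨Nat.pos_of_dvd_of_pos hd h5.1,
      (Nat.le_of_dvd h5.1 hd).trans h5.2⟩, Nat.Coprime.coprime_dvd_left hd h4⟩) (g2_nonneg l u)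
  have hD := Real.log_natCast_nonneg D
  refine h.trans (mul_le_mul_of_nonneg_left ?_ (by positivity))
  rw [g3, sum_filter]
  refine sum_le_sum fun q _ => ?_
  split_ifs with hq
  · exact mul_le_mul_of_nonneg_left (sum_le_sum fun b _ => g2_le ..) (Level.tq_nonneg 5 q)
  · rw [sum_eq_zero, mul_zero]
    intro b hb
    have hb0 : b = 0 := by
      have := mem_range.1 (mem_filter.1 hb).1
      omega
    simp [g2, hb0]

theorem log_le (M k l : ℕ) (h : M ^ 2 ≤ 10 ^ k) (hk : k ≤ l) (hl : 2 ≤ l) :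
    1 + log M ≤ 2 * (l : ℝ) := by
  have hl' : (2 : ℝ) ≤ l := by exact_mod_cast hl
  have hk' : (k : ℝ) ≤ l := by exact_mod_cast hk
  rcases Nat.eq_zero_or_pos M with rfl | hM
  · simp only [Nat.cast_zero, log_zero]
    linarith
  · have hM0 : (0 : ℝ) < M := by exact_mod_cast hM
    have h1 : (M : ℝ) ^ 2 ≤ 10 ^ k := by exact_mod_cast h
    have h2 := log_le_log (by positivity) h1
    have h3 := Core2.log_ten_pow k
    rw [log_pow M 2] at h2
    push_cast at h2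
    linarith

theorem fin (A a b : ℕ) (l x y T : ℝ) (hl : 104 * 2 ^ (2 * (a + b)) ≤ l) (hx0 : 0 ≤ x)
    (hx : x ≤ 2 * l) (hy0 : 0 ≤ y) (hy : y ≤ 2 * l) (hT : 0 ≤ T) :
    4 * T * (x ^ a * (y ^ a * (260 * (1 / l ^ (A + (2 * (a + b) + 1))) * (x ^ b * y ^ b)))) ≤
      T * 10 / l ^ A := by
  have hl0 : 0 < l := lt_of_lt_of_le (by positivity) hl
  have h1 : x ^ (a + b) * y ^ (a + b) ≤ (2 * l) ^ (a + b) * (2 * l) ^ (a + b) :=
    mul_le_mul (pow_le_pow_left₀ hx0 hx _) (pow_le_pow_left₀ hy0 hy _) (by positivity)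
      (by positivity)
  have h2 : (2 * l) ^ (a + b) * (2 * l) ^ (a + b) = 2 ^ (2 * (a + b)) * l ^ (2 * (a + b)) := by
    rw [← pow_add, ← two_mul, mul_pow]
  have h3 : 104 * (x ^ (a + b) * y ^ (a + b)) ≤ l ^ (2 * (a + b) + 1) := by
    have h4 := mul_le_mul_of_nonneg_right hl (pow_nonneg hl0.le (2 * (a + b)))
    rw [pow_succ']
    rw [h2] at h1
    linarith
  have h5 : 104 * (x ^ (a + b) * y ^ (a + b)) / l ^ (2 * (a + b) + 1) ≤ 1 :=
    (div_le_one (by positivity)).2 h3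
  calc _ = T * 10 / l ^ A * (104 * (x ^ (a + b) * y ^ (a + b)) / l ^ (2 * (a + b) + 1)) := by
        rw [pow_add l A, pow_add x, pow_add y]
        field_simp
        ring
    _ ≤ T * 10 / l ^ A * 1 := mul_le_mul_of_nonneg_left h5 (by positivity)
    _ = _ := mul_one _

theorem core (h1 : FourStmt) (h2 : RedStmt) (l M D : ℕ) (S : ℝ) (hl : 1 ≤ l)
    (hS : ∑ m ∈ Icc 1 M, tau m ^ 5 / m * ∑ a ∈ red m, g3 l D (a / m) ≤ S) :
    ∑ m ∈ Icc 1 M, tau m ^ 5 * rem (10 ^ l) (wm l m) (rv l) D ≤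
      4 * 10 ^ (l - 1) * ((1 + log M) ^ 32 * ((1 + log D) ^ 32 * S)) := by
  have hM0 := Real.log_natCast_nonneg M
  have hD0 := Real.log_natCast_nonneg D
  have e2 := h2 M (Icc 1 M) (g1 l D) subset_rfl (fun q hq d hd => by
    have h5 := mem_Icc.1 hq
    exact mem_Icc.2 ⟨Nat.pos_of_dvd_of_pos hd h5.1, (Nat.le_of_dvd h5.1 hd).trans h5.2⟩)
    (g1_nonneg l D)
  have e3 : ∑ m ∈ Icc 1 M, tau m ^ 5 / m * ∑ a ∈ red m, g1 l D (a / m) ≤
      (1 + log D) ^ 32 * ∑ m ∈ Icc 1 M, tau m ^ 5 / m * ∑ a ∈ red m, g3 l D (a / m) := by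
    rw [mul_sum]
    refine sum_le_sum fun m _ => ?_
    rw [mul_left_comm]
    refine mul_le_mul_of_nonneg_left ?_ (Level.tq_nonneg 5 m)
    rw [mul_sum]
    exact sum_le_sum fun a _ => step3 h2 l D _
  refine (sum_le_sum fun m hm => step1 h1 l m D hl (mem_Icc.1 hm).1).trans ?_
  rw [← mul_sum]
  refine mul_le_mul_of_nonneg_left (e2.trans (mul_le_mul_of_nonneg_left
    (e3.trans (mul_le_mul_of_nonneg_left hS ?_)) ?_)) ?_
  · exact pow_nonneg (by linarith) _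
  · exact pow_nonneg (by linarith) _
  · positivity

theorem ev (n : ℕ) : ∀ᶠ l : ℕ in atTop, 104 * 2 ^ n ≤ (l : ℝ) :=
  (tendsto_natCast_atTop_atTop (R := ℝ)).eventually_ge_atTop _

theorem gen (h1 : FourStmt) (h2 : RedStmt) (h3 : MidStmt) (h4 : CsStmt) (A a b : ℕ)
    (ha : a = 32) (hb : b = 512) : ∀ᶠ l : ℕ in atTop, ∀ M D k₁ k₂ : ℕ, M ^ 2 ≤ 10 ^ k₁ →
    D ^ 2 ≤ 10 ^ k₂ → k₁ + l / 2000 + k₂ + 1 ≤ l →
    ∑ m ∈ Icc 1 M, tau m ^ 5 * rem (10 ^ l) (wm l m) (rv l) D ≤ 10 ^ l / (l : ℝ) ^ A := by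
  refine ((h3 (A + (2 * (a + b) + 1))).and ((eventually_ge_atTop 2).and
    (ev (2 * (a + b))))).mono ?_
  rintro l ⟨hG, hl, hL⟩ M D k₁ k₂ hM hD hk
  obtain ⟨G, hG0, hG1⟩ := hG k₁ (by omega)
  have hM0 := Real.log_natCast_nonneg M
  have hD0 := Real.log_natCast_nonneg D
  have e4 := h4 l M D k₁ (l / 2000) k₂ G _ hk hM hD (by positivity) hG0 hG1
  have e1 := core h1 h2 l M D _ (by omega) e4
  have e5 := fin A a b l (1 + log M) (1 + log D) (10 ^ (l - 1)) hL (by positivity)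
    (log_le M k₁ l hM (by omega) hl) (by positivity) (log_le D k₂ l hD (by omega) hl)
    (by positivity)
  have e6 : (10 : ℝ) ^ (l - 1) * 10 = 10 ^ l := by
    rw [← pow_succ, Nat.sub_add_cancel (by omega : 1 ≤ l)]
  rw [e6] at e5
  rw [← ha, ← hb] at e1
  exact e1.trans e5

end Tone

theorem tone (h1 : FourStmt) (h2 : RedStmt) (h3 : MidStmt) (h4 : CsStmt) : ToneStmt :=
  fun A => Tone.gen h1 h2 h3 h4 A 32 512 rfl rfl

end

end Pool.Agent.Emirp.LP
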